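import Pool.Agent.H32.Disc.M1

set_option autoImplicit false

open Real

namespace Pool.Agent.H32.Disc

variable {A : Set ℂ} {b1 b2 b3 t : ℝ}

lemma sin_add_sin' (x y : ℝ) : sin x + sin y = 2 * sin ((x + y) / 2) * cos ((x - y) / 2) := by
  have := two_mul_sin_mul_cos ((x + y) / 2) ((x - y) / 2)
  rw [this]
  rw [show (x + y) / 2 - (x - y) / 2 = y by ring, show (x + y) / 2 + (x - y) / 2 = x by ring]
  ring

/-- norm of `u - N` -/
lemma nrm_sub (u N : ℂ) : (u - N).re ^ 2 + (u - N).im ^ 2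
    = (u.re ^ 2 + u.im ^ 2) - 2 * (u.re * N.re + u.im * N.im) + (N.re ^ 2 + N.im ^ 2) := by
  simp only [Complex.sub_re, Complex.sub_im]; ring

/-- the point `V (t + i κ)` -/
noncomputable def uu (b1 b3 t κ : ℝ) : ℂ :=
  ⟨t, κ⟩ + e (-b3) * ⟨t, κ⟩ - e b1 * ⟨t, κ⟩

lemma uu_dot (b1 b3 t κ φ : ℝ) : (uu b1 b3 t κ).re * cos φ + (uu b1 b3 t κ).im * sin φ
    = (t * cos φ + κ * sin φ) + (t * cos (φ + b3) + κ * sin (φ + b3))
      - (t * cos (φ - b1) + κ * sin (φ - b1)) := by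
  simp only [uu, Complex.sub_re, Complex.add_re, Complex.mul_re, Complex.sub_im, Complex.add_im,
    Complex.mul_im, e_re, e_im, cos_neg, sin_neg, cos_add, sin_add, cos_sub, sin_sub]
  ring

lemma uu_nrm (b1 b3 t κ : ℝ) : (uu b1 b3 t κ).re ^ 2 + (uu b1 b3 t κ).im ^ 2
    = (t ^ 2 + κ ^ 2) * (3 + 2 * cos b3 - 2 * cos b1 - 2 * cos (b1 + b3)) := by
  simp only [uu, Complex.sub_re, Complex.add_re, Complex.mul_re, Complex.sub_im, Complex.add_im,
    Complex.mul_im, e_re, e_im, cos_neg, sin_neg, cos_add]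
  have h1 := cos_sq_add_sin_sq b1
  have h3 := cos_sq_add_sin_sq b3
  linear_combination (t ^ 2 + κ ^ 2) * h1 + (t ^ 2 + κ ^ 2) * h3

namespace Cfg

/-- two adjacent points `z`, `q z` -/
lemma U (h : Cfg A b1 b2 b3 t) (hb : b3 ≤ b2) {z : ℂ} (hz : z.re ^ 2 + z.im ^ 2 = 1)
    (h2 : z.re * cos (b1 + b2) + z.im * sin (b1 + b2) < t)
    (h1 : z.re * cos (-(b1 + b2)) + z.im * sin (-(b1 + b2)) < t) : z ∈ A := by
  have ht := h.t0
  have hsum := h.sum
  have hp1 := h.p1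
  have hp2 := h.p2
  have hp3 := h.p3
  rcases h.cov z hz.le with h' | ⟨w, hw, hzw⟩ | ⟨w, hw, hzw⟩
  · exact h'
  · exact absurd (h.out2 hz hw hzw) (not_le.2 h2)
  exfalso
  have k1 := h.out3 hz hw hzw
  have hz' : (e (b1 + b2) * z).re ^ 2 + (e (b1 + b2) * z).im ^ 2 = 1 := by
    rw [mul_nrm]; exact hz
  have k2 : z.re * cos (-b2) + z.im * sin (-b2) ≤ -t := by
    rcases h.cov _ hz'.le with h' | ⟨w', hw', hzw'⟩ | ⟨w', hw', hzw'⟩
    · exfalso
      have := h.out1 hz' h'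
      have e0 := mul_dot (b1 + b2) 0 z
      rw [cos_zero, sin_zero, zero_sub] at e0
      linarith
    · exfalso
      have e1 : z = w' := mul_left_cancel₀ (e_ne_zero _) hzw'
      exact h.n13 z w (e1 ▸ hw') hw hzw
    · have := h.out3 hz' hw' hzw'
      rw [mul_dot, show b1 - (b1 + b2) = -b2 by ring] at this
      exact this
  rw [cos_neg, sin_neg] at k2
  rw [h.cosα, h.sinα] at h2
  have hb1 : b1 = π - (b2 + b3) := by linarith
  have hc1 : cos b1 = - cos (b2 + b3) := by rw [hb1, cos_pi_sub]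
  have hs1 : sin b1 = sin (b2 + b3) := by rw [hb1, sin_pi_sub]
  have hs3 : 0 < sin b3 := sin_pos_of_pos_of_lt_pi hp3 (by linarith)
  have hs2 : 0 < sin b2 := sin_pos_of_pos_of_lt_pi hp2 (by linarith)
  have hs23 : 0 ≤ sin (b2 - b3) := sin_nonneg_of_nonneg_of_le_pi (by linarith) (by linarith)
  have h23 : sin b3 ≤ sin b2 := by
    have := sin_sub_sin b2 b3
    have a1 : 0 ≤ sin ((b2 - b3) / 2) :=
      sin_nonneg_of_nonneg_of_le_pi (by linarith) (by linarith)
    have a2 : 0 ≤ cos ((b2 + b3) / 2) := cos_nonneg_of_mem_Icc ⟨by linarith, by linarith⟩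
    nlinarith [mul_nonneg a1 a2]
  -- combination
  have key : sin b3 * (z.re * cos b3 - z.im * sin b3)
      = sin (b2 - b3) * (z.re * cos b1 + z.im * sin b1) + sin b2 * (z.re * cos b2 - z.im * sin b2) := by
    rw [hc1, hs1, sin_sub, cos_add, sin_add]
    have q2 := cos_sq_add_sin_sq b2
    have q3 := cos_sq_add_sin_sq b3
    linear_combination z.re * (sin b2 * cos b2 * q3 - sin b3 * cos b3 * q2)
      + z.im * (sin b3 ^ 2 * q2 - sin b2 ^ 2 * q3)
  nlinarith [mul_nonneg hs23 (sub_nonneg.2 k1), mul_nonneg hs2.le (sub_nonneg.2 k2)]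

lemma BK0 (h : Cfg A b1 b2 b3 t) (hb : b3 ≤ b2) {κ : ℝ} (hκ : 0 ≤ κ)
    (hn : (t ^ 2 + κ ^ 2) * (3 + 2 * cos b3 - 2 * cos b1 + 2 * cos b2) = 1)
    (hu : 0 < κ * cos ((b1 - b2) / 2) - t * sin ((b1 - b2) / 2))
    (hv : 0 < κ * cos ((b1 - b3) / 2) + t * sin ((b1 - b3) / 2)) :
    uu b1 b3 t κ ∈ A ∧ ∃ y ∈ A, e (b1 + b2) * y = e (-b2) * (uu b1 b3 t κ - (2 * t : ℝ)) := by
  have ht := h.t0
  have hsum := h.sum
  have hp1 := h.p1
  have hp2 := h.p2
  have hp3 := h.p3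
  have hcos2 : cos (b1 + b3) = - cos b2 := by
    rw [show b1 + b3 = π - b2 by linarith, cos_pi_sub]
  have hsin2 : sin (b1 + b3) = sin b2 := by
    rw [show b1 + b3 = π - b2 by linarith, sin_pi_sub]
  have hs3 : 0 < sin b3 := sin_pos_of_pos_of_lt_pi hp3 (by linarith)
  have hs23 : 0 ≤ sin (b2 - b3) := sin_nonneg_of_nonneg_of_le_pi (by linarith) (by linarith)
  have hca2 : 0 < cos ((b2 + b3) / 2) := cos_pos_of_mem_Ioo ⟨by linarith, by linarith⟩
  have hcd2 : 0 < cos ((b2 - b3) / 2) := cos_pos_of_mem_Ioo ⟨by linarith, by linarith⟩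
  have h23 : sin b3 ≤ sin b2 := by
    have := sin_sub_sin b2 b3
    have a1 : 0 ≤ sin ((b2 - b3) / 2) :=
      sin_nonneg_of_nonneg_of_le_pi (by linarith) (by linarith)
    nlinarith [mul_nonneg a1 hca2.le]
  have hlt : ∀ x : ℝ, 0 < x → x < π → -1 < cos x := by
    intro x hx0 hxπ
    have := cos_lt_cos_of_nonneg_of_le_pi (x := x) (y := π) hx0.le le_rfl hxπ
    rwa [cos_pi] at this
  have hc2 := hlt b2 hp2 (by linarith)
  have hc3 := hlt b3 hp3 (by linarith)
  set u := uu b1 b3 t κ with hudef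
  have hnrm : u.re ^ 2 + u.im ^ 2 = 1 := by
    rw [hudef, uu_nrm, hcos2, ← hn]; ring
  -- u in A
  have huA : u ∈ A := by
    apply h.F1 hnrm
    · rw [hudef, uu_dot, show b1 + b2 + b3 = π by linarith, show b1 + b2 - b1 = b2 by ring,
        h.cosα, h.sinα, cos_pi, sin_pi]
      nlinarith [mul_nonneg hκ (sub_nonneg.2 h23), mul_pos ht (show 0 < 2 + cos b2 + cos b3 by linarith)]
    · rw [hudef, uu_dot, sub_self, cos_zero, sin_zero, hcos2, hsin2]
      have e1 := cos_sub_cos b1 b2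
      have e2 := sin_add_sin' b1 b2
      have hsp : 0 < sin ((b1 + b2) / 2) := sin_pos_of_pos_of_lt_pi (by linarith) (by linarith)
      have := mul_pos hsp hu
      have e3 : t * (cos b1 - cos b2) + κ * (sin b1 + sin b2)
          = 2 * (sin ((b1 + b2) / 2) * (κ * cos ((b1 - b2) / 2) - t * sin ((b1 - b2) / 2))) := by
        rw [e1, e2]; ring
      linarith
  -- v in A
  set v : ℂ := e (-b1) * uu b1 b3 (-t) κ with hvdef
  have hvA : v ∈ A := by
    apply h.U hb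
    · rw [hvdef, mul_nrm, uu_nrm, hcos2, ← hn]; ring
    · rw [hvdef, mul_dot, uu_dot, show b1 + b2 - -b1 + b3 = π + b1 by linarith,
        show b1 + b2 - -b1 - b1 = b1 + b2 by ring, show b1 + b2 - -b1 = π + (b1 - b3) by linarith,
        h.cosα, h.sinα]
      have c1 : cos (π + (b1 - b3)) = - cos (b1 - b3) := by rw [add_comm, cos_add_pi]
      have c2 : sin (π + (b1 - b3)) = - sin (b1 - b3) := by rw [add_comm, sin_add_pi]
      have c3 : cos (π + b1) = - cos b1 := by rw [add_comm, cos_add_pi]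
      have c4 : sin (π + b1) = - sin b1 := by rw [add_comm, sin_add_pi]
      rw [c1, c2, c3, c4]
      -- factorisation
      have hs1 : 0 < sin (b1 / 2) := sin_pos_of_pos_of_lt_pi (by linarith) (by linarith)
      have hcc3 : 0 < cos (b3 / 2) := cos_pos_of_mem_Ioo ⟨by linarith, by linarith⟩
      have f1 : 1 - cos (b1 - b3) = 2 * sin ((b1 - b3) / 2) ^ 2 := by
        have := cos_two_mul ((b1 - b3) / 2)
        rw [show 2 * ((b1 - b3) / 2) = b1 - b3 by ring] at this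
        have h' := sin_sq_add_cos_sq ((b1 - b3) / 2)
        linarith
      have f2 : cos b3 - cos b1 = 2 * sin ((b1 + b3) / 2) * sin ((b1 - b3) / 2) := by
        have := cos_sub_cos b1 b3
        linarith
      have f3 : sin ((b1 - b3) / 2) + sin ((b1 + b3) / 2) = 2 * sin (b1 / 2) * cos (b3 / 2) := by
        have := two_mul_sin_mul_cos (b1 / 2) (b3 / 2)
        rw [this]
        rw [show b1 / 2 - b3 / 2 = (b1 - b3) / 2 by ring,
          show b1 / 2 + b3 / 2 = (b1 + b3) / 2 by ring]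
      have f4 : sin b1 + sin b3 = 2 * sin ((b1 + b3) / 2) * cos ((b1 - b3) / 2) := sin_add_sin' _ _
      have f5 : sin (b1 - b3) = 2 * sin ((b1 - b3) / 2) * cos ((b1 - b3) / 2) := by
        rw [← sin_two_mul]; congr 1; ring
      have key : t * (1 - cos (b1 - b3) + (cos b3 - cos b1)) + κ * (sin b1 + sin b3 + sin (b1 - b3))
          = 4 * (sin (b1 / 2) * cos (b3 / 2)) *
            (κ * cos ((b1 - b3) / 2) + t * sin ((b1 - b3) / 2)) := by
        rw [f1, f2, f4, f5]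
        have : 4 * (sin (b1 / 2) * cos (b3 / 2)) = 2 * (sin ((b1 - b3) / 2) + sin ((b1 + b3) / 2)) := by
          rw [f3]; ring
        rw [this]; ring
      have := mul_pos (mul_pos hs1 hcc3) hv
      nlinarith
    · rw [hvdef, mul_dot, uu_dot, show -(b1 + b2) - -b1 + b3 = -(b2 - b3) by ring,
        show -(b1 + b2) - -b1 - b1 = -(b1 + b2) by ring, show -(b1 + b2) - -b1 = -b2 by ring]
      rw [cos_neg, sin_neg, cos_neg, sin_neg, cos_neg, sin_neg, h.cosα, h.sinα]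
      have f1 : 1 + cos (b2 - b3) = 2 * cos ((b2 - b3) / 2) ^ 2 := by
        have := cos_two_mul ((b2 - b3) / 2)
        rw [show 2 * ((b2 - b3) / 2) = b2 - b3 by ring] at this
        linarith
      have f2 := cos_add_cos b2 b3
      have := mul_pos hca2 hcd2
      have p1 : 0 < 1 + cos (b2 - b3) + (cos b2 + cos b3) := by
        rw [f1, f2]; nlinarith [pow_pos hcd2 2]
      nlinarith [mul_pos ht p1, mul_nonneg hκ (show 0 ≤ sin b2 - sin b3 + sin (b2 - b3) by linarith)]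
  refine ⟨huA, ?_⟩
  -- the point Z
  have hZn : (e (-b2) * (u - (2 * t : ℝ))).re ^ 2 + (e (-b2) * (u - (2 * t : ℝ))).im ^ 2 ≤ 1 := by
    rw [mul_nrm]
    have := h.in2 u huA
    simpa using this
  rcases h.cov _ hZn with h' | ⟨y, hy, hyz⟩ | ⟨w, hw, hwz⟩
  · exfalso
    refine h.n23 _ u h' huA ?_
    rw [← mul_assoc, ← e_add]; congr 2; ring
  · exact ⟨y, hy, hyz.symm⟩
  · exfalso
    refine h.n23 w v hw hvA ?_
    -- w = e (-b2) * (v - 2 t)
    have hw1 : w = e (-b1) * (e (-b2) * (u - (2 * t : ℝ))) + (2 * t : ℝ) := by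
      rw [hwz, ← mul_assoc, e_neg_mul, one_mul]; ring
    rw [hw1]
    -- identity
    have hα : e (b1 + b2) = - e (-b3) := by
      rw [show b1 + b2 = π + -b3 by linarith, e_add, e_pi]; ring
    have i1 : v = e (-b1) * (⟨-t, κ⟩ + e (-b3) * ⟨-t, κ⟩ - e b1 * ⟨-t, κ⟩) := hvdef
    have i2 : u = ⟨t, κ⟩ + e (-b3) * ⟨t, κ⟩ - e b1 * ⟨t, κ⟩ := hudef
    have i3 : (⟨-t, κ⟩ : ℂ) = ⟨t, κ⟩ - (2 * t : ℝ) := by
      apply Complex.ext
      · simp; ring
      · simp
    have i4 : e b1 * v = u - (2 * t : ℝ) * (1 + e (-b3) - e b1) := by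
      rw [i1, i2, i3, ← mul_assoc, e_mul_neg]; ring
    have i5 : e (b1 + b2) * (e (-b1) * (e (-b2) * (u - (2 * t : ℝ))) + (2 * t : ℝ))
        = (u - (2 * t : ℝ)) + e (b1 + b2) * (2 * t : ℝ) := by
      have : e (b1 + b2) * (e (-b1) * (e (-b2) * (u - (2 * t : ℝ)))) = u - (2 * t : ℝ) := by
        rw [← mul_assoc, ← mul_assoc, ← e_add, ← e_add,
          show b1 + b2 + -b1 + -b2 = 0 by ring, e_zero, one_mul]
      rw [mul_add, this]
    rw [i5, mul_sub, i4, hα]; ring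

/-- second pattern, version (a) -/
lemma BKa (h : Cfg A b1 b2 b3 t) (hb : b3 < b2) {κ : ℝ} (hκ : 0 ≤ κ)
    (hn : (t ^ 2 + κ ^ 2) * (3 + 2 * cos b3 - 2 * cos b1 + 2 * cos b2) = 1)
    (hu : 0 < κ * cos ((b1 - b2) / 2) - t * sin ((b1 - b2) / 2))
    (hv : 0 < κ * cos ((b1 - b3) / 2) + t * sin ((b1 - b3) / 2))
    (hb2 : 0 < 1 + 2 * cos b2) (hk : t * cos (b1 / 2) < κ * sin (b1 / 2)) : False := by
  have ht := h.t0
  have hsum := h.sum
  have hp1 := h.p1
  have hp2 := h.p2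
  have hp3 := h.p3
  obtain ⟨huA, y, hyA, hy⟩ := h.BK0 hb.le hκ hn hu hv
  set u := uu b1 b3 t κ with hudef
  have hcos2 : cos (b1 + b3) = - cos b2 := by
    rw [show b1 + b3 = π - b2 by linarith, cos_pi_sub]
  have hnrm : u.re ^ 2 + u.im ^ 2 = 1 := by
    rw [hudef, uu_nrm, hcos2, ← hn]; ring
  have hy2 : y - (2 * t : ℝ) = e (-b1 - 2 * b2) * (u - (2 * t : ℝ) * (1 + e (b1 + 2 * b2))) := by
    have : y = e (-b1 - 2 * b2) * (u - (2 * t : ℝ)) := by
      have := congrArg (fun x => e (-(b1 + b2)) * x) hy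
      simp only [← mul_assoc, ← e_add] at this
      rw [show -(b1 + b2) + (b1 + b2) = 0 by ring, e_zero, one_mul] at this
      rw [this]; congr 2; ring
    have h0 : e (-b1 - 2 * b2) * e (b1 + 2 * b2) = 1 := by
      rw [← e_add, show -b1 - 2 * b2 + (b1 + 2 * b2) = 0 by ring, e_zero]
    rw [this]
    linear_combination ((2 * t : ℝ) : ℂ) * h0
  have h3 := h.in2 y hyA
  have h4 : (y - (2 * t : ℝ)).re ^ 2 + (y - (2 * t : ℝ)).im ^ 2 ≤ 1 := by
    simpa using h3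
  rw [hy2, mul_nrm, nrm_sub, hnrm] at h4
  have hΔ : b1 + 2 * b2 = π + (b2 - b3) := by linarith
  have hre : (((2 * t : ℝ) : ℂ) * (1 + e (b1 + 2 * b2))).re = 2 * t * (1 - cos (b2 - b3)) := by
    rw [hΔ, e_add, e_pi]
    simp only [Complex.mul_re, Complex.mul_im, Complex.add_re, Complex.add_im, Complex.one_re,
      Complex.one_im, Complex.neg_re, Complex.neg_im, Complex.ofReal_re, Complex.ofReal_im, e_re,
      e_im]
    ring
  have him : (((2 * t : ℝ) : ℂ) * (1 + e (b1 + 2 * b2))).im = 2 * t * (- sin (b2 - b3)) := by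
    rw [hΔ, e_add, e_pi]; simp
  rw [hre, him] at h4
  have d0 := uu_dot b1 b3 t κ 0
  have dΔ := uu_dot b1 b3 t κ (b2 - b3)
  rw [← hudef] at d0 dΔ
  rw [cos_zero, sin_zero, zero_add, zero_sub, cos_neg, sin_neg] at d0
  rw [show b2 - b3 + b3 = b2 by ring, show b2 - b3 - b1 = 2 * b2 - π by linarith, cos_sub_pi,
    sin_sub_pi, cos_two_mul, sin_two_mul] at dΔ
  have hcsΔ := cos_sq_add_sin_sq (b2 - b3)
  -- inequality t(2-2cosΔ) ≤ dot0 - dotΔ
  have h5 : t * (2 - 2 * cos (b2 - b3)) ≤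
      (u.re - (u.re * cos (b2 - b3) + u.im * sin (b2 - b3))) := by
    have : 4 * t * (t * (2 - 2 * cos (b2 - b3))
      - (u.re - (u.re * cos (b2 - b3) + u.im * sin (b2 - b3)))) ≤ 0 := by
      nlinarith
    by_contra hcon
    push Not at hcon
    nlinarith [mul_pos ht (sub_pos.2 hcon)]
  -- product formulas
  have hb1 : b1 = π - (b2 + b3) := by linarith
  have hc1 : cos b1 = - cos (b2 + b3) := by rw [hb1, cos_pi_sub]
  have hs1 : sin b1 = sin (b2 + b3) := by rw [hb1, sin_pi_sub]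
  have hhc1 : cos (b1 / 2) = sin ((b2 + b3) / 2) := by
    rw [show b1 / 2 = π / 2 - (b2 + b3) / 2 by linarith, cos_pi_div_two_sub]
  have hhs1 : sin (b1 / 2) = cos ((b2 + b3) / 2) := by
    rw [show b1 / 2 = π / 2 - (b2 + b3) / 2 by linarith, sin_pi_div_two_sub]
  have g1 : sin b2 - sin b3 = 2 * sin ((b2 - b3) / 2) * sin (b1 / 2) := by
    rw [hhs1]; exact sin_sub_sin b2 b3
  have g2 : cos b3 - cos b2 = 2 * sin ((b2 - b3) / 2) * cos (b1 / 2) := by
    rw [hhc1]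
    have := cos_sub_cos b2 b3
    linarith
  have hsd : 0 < sin ((b2 - b3) / 2) := sin_pos_of_pos_of_lt_pi (by linarith) (by linarith)
  have key : 0 < (1 + 2 * cos b2) * (κ * (sin b2 - sin b3) - t * (cos b3 - cos b2)) := by
    rw [g1, g2]
    have e1 : κ * (2 * sin ((b2 - b3) / 2) * sin (b1 / 2)) -
        t * (2 * sin ((b2 - b3) / 2) * cos (b1 / 2))
        = 2 * sin ((b2 - b3) / 2) * (κ * sin (b1 / 2) - t * cos (b1 / 2)) := by ring
    rw [e1]
    exact mul_pos hb2 (mul_pos (mul_pos two_pos hsd) (sub_pos.2 hk))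
  have q1 : sin (b2 + b3) = sin b2 * cos b3 + cos b2 * sin b3 := sin_add _ _
  have q2 : cos (b2 + b3) = cos b2 * cos b3 - sin b2 * sin b3 := cos_add _ _
  have q3 : sin (b2 - b3) = sin b2 * cos b3 - cos b2 * sin b3 := sin_sub _ _
  have q4 : cos (b2 - b3) = cos b2 * cos b3 + sin b2 * sin b3 := cos_sub _ _
  have eqn : t * (2 - 2 * cos (b2 - b3)) -
      (u.re - (u.re * cos (b2 - b3) + u.im * sin (b2 - b3)))
      = (1 + 2 * cos b2) * (κ * (sin b2 - sin b3) - t * (cos b3 - cos b2)) := by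
    rw [mul_one, mul_zero, add_zero] at d0
    rw [dΔ, d0, hc1, hs1, q1, q2, q3, q4]
    ring
  linarith

end Cfg

end Pool.Agent.H32.Disc
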