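import Mathlib

set_option autoImplicit false

open Real

namespace Pool.Agent.H32.Disc

/-- the unit complex number of angle `θ` -/
noncomputable def e (θ : ℝ) : ℂ := ⟨cos θ, sin θ⟩

@[simp] lemma e_re (θ : ℝ) : (e θ).re = cos θ := rfl
@[simp] lemma e_im (θ : ℝ) : (e θ).im = sin θ := rfl

lemma e_add (x y : ℝ) : e (x + y) = e x * e y := by
  apply Complex.ext
  · simp [cos_add]
  · simp [sin_add]; ring

lemma e_zero : e 0 = 1 := by
  apply Complex.ext <;> simp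

lemma e_pi : e π = -1 := by
  apply Complex.ext <;> simp

lemma e_neg_mul (x : ℝ) : e (-x) * e x = 1 := by
  rw [← e_add, neg_add_cancel, e_zero]

lemma e_mul_neg (x : ℝ) : e x * e (-x) = 1 := by
  rw [← e_add, add_neg_cancel, e_zero]

lemma e_ne_zero (x : ℝ) : e x ≠ 0 := by
  intro h
  have := e_neg_mul x
  rw [h, mul_zero] at this
  exact zero_ne_one this

lemma e_sq (x : ℝ) : (e x).re ^ 2 + (e x).im ^ 2 = 1 := by
  simp [cos_sq_add_sin_sq]

lemma mul_nrm (θ : ℝ) (z : ℂ) : (e θ * z).re ^ 2 + (e θ * z).im ^ 2 = z.re ^ 2 + z.im ^ 2 := by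
  simp only [Complex.mul_re, Complex.mul_im, e_re, e_im]
  have := cos_sq_add_sin_sq θ
  linear_combination (z.re ^ 2 + z.im ^ 2) * this

lemma mul_dot (θ φ : ℝ) (z : ℂ) : (e θ * z).re * cos φ + (e θ * z).im * sin φ
    = z.re * cos (φ - θ) + z.im * sin (φ - θ) := by
  simp only [Complex.mul_re, Complex.mul_im, e_re, e_im, cos_sub, sin_sub]
  ring

lemma mul_re0 (θ : ℝ) (z : ℂ) : (e θ * z).re = z.re * cos θ - z.im * sin θ := by
  simp only [Complex.mul_re, e_re, e_im]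
  ring

/-- A tiling configuration: `A`, `q A`, `ψ A` tile the unit disc, `q = e (b1+b2)`,
`ψ z = e b1 * (z - 2 t)`. -/
structure Cfg (A : Set ℂ) (b1 b2 b3 t : ℝ) : Prop where
  sum : b1 + b2 + b3 = π
  t0 : 0 < t
  h1 : t ≤ sin (b1 / 2)
  h2 : t ≤ sin (b2 / 2)
  h3 : t ≤ sin (b3 / 2)
  p1 : 0 < b1
  p2 : 0 < b2
  p3 : 0 < b3
  cov : ∀ z : ℂ, z.re ^ 2 + z.im ^ 2 ≤ 1 → z ∈ A ∨ (∃ w ∈ A, z = e (b1 + b2) * w) ∨
    (∃ w ∈ A, z = e b1 * (w - (2 * t : ℝ)))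
  n12 : ∀ z w : ℂ, z ∈ A → w ∈ A → z = e (b1 + b2) * w → False
  n13 : ∀ z w : ℂ, z ∈ A → w ∈ A → z = e b1 * (w - (2 * t : ℝ)) → False
  n23 : ∀ z w : ℂ, z ∈ A → w ∈ A → e (b1 + b2) * z = e b1 * (w - (2 * t : ℝ)) → False
  in1 : ∀ z ∈ A, z.re ^ 2 + z.im ^ 2 ≤ 1
  in2 : ∀ z ∈ A, (z.re - 2 * t) ^ 2 + z.im ^ 2 ≤ 1

variable {A : Set ℂ} {b1 b2 b3 t : ℝ}

namespace Cfg

/-- if `z` is a unit point and `z = q w` with `w ∈ A` then the dot product is at least `t` -/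
lemma out2 (h : Cfg A b1 b2 b3 t) {z w : ℂ} (hz : z.re ^ 2 + z.im ^ 2 = 1) (hw : w ∈ A)
    (hzw : z = e (b1 + b2) * w) : t ≤ z.re * cos (b1 + b2) + z.im * sin (b1 + b2) := by
  have h0 := h.t0
  subst hzw
  rw [mul_dot, sub_self, cos_zero, sin_zero]
  rw [mul_nrm] at hz
  have := h.in2 w hw
  nlinarith

lemma out1 (h : Cfg A b1 b2 b3 t) {z : ℂ} (hz : z.re ^ 2 + z.im ^ 2 = 1) (hw : z ∈ A) :
    t ≤ z.re := by
  have h0 := h.t0
  have := h.in2 z hw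
  nlinarith

lemma out3 (h : Cfg A b1 b2 b3 t) {z w : ℂ} (hz : z.re ^ 2 + z.im ^ 2 = 1) (hw : w ∈ A)
    (hzw : z = e b1 * (w - (2 * t : ℝ))) : z.re * cos b1 + z.im * sin b1 ≤ -t := by
  have h0 := h.t0
  subst hzw
  rw [mul_dot, sub_self, cos_zero, sin_zero]
  rw [mul_nrm] at hz
  have := h.in1 w hw
  simp only [Complex.sub_re, Complex.sub_im, Complex.ofReal_re, Complex.ofReal_im] at hz ⊢
  nlinarith

lemma F1 (h : Cfg A b1 b2 b3 t) {z : ℂ} (hz : z.re ^ 2 + z.im ^ 2 = 1)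
    (h2 : z.re * cos (b1 + b2) + z.im * sin (b1 + b2) < t)
    (h3 : -t < z.re * cos b1 + z.im * sin b1) : z ∈ A := by
  rcases h.cov z hz.le with h' | ⟨w, hw, hzw⟩ | ⟨w, hw, hzw⟩
  · exact h'
  · exact absurd (h.out2 hz hw hzw) (not_le.2 h2)
  · exact absurd (h.out3 hz hw hzw) (not_le.2 h3)

lemma F2 (h : Cfg A b1 b2 b3 t) {z : ℂ} (hz : z.re ^ 2 + z.im ^ 2 = 1)
    (h1 : z.re < t) (h3 : -t < z.re * cos b1 + z.im * sin b1) :
    ∃ w ∈ A, z = e (b1 + b2) * w := by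
  rcases h.cov z hz.le with h' | ⟨w, hw, hzw⟩ | ⟨w, hw, hzw⟩
  · exact absurd (h.out1 hz h') (not_le.2 h1)
  · exact ⟨w, hw, hzw⟩
  · exact absurd (h.out3 hz hw hzw) (not_le.2 h3)

lemma F3 (h : Cfg A b1 b2 b3 t) {z : ℂ} (hz : z.re ^ 2 + z.im ^ 2 = 1)
    (h1 : z.re < t) (h2 : z.re * cos (b1 + b2) + z.im * sin (b1 + b2) < t) :
    ∃ w ∈ A, z = e b1 * (w - (2 * t : ℝ)) := by
  rcases h.cov z hz.le with h' | ⟨w, hw, hzw⟩ | ⟨w, hw, hzw⟩
  · exact absurd (h.out1 hz h') (not_le.2 h1)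
  · exact absurd (h.out2 hz hw hzw) (not_le.2 h2)
  · exact ⟨w, hw, hzw⟩

/-- mirror symmetry -/
lemma mirror (h : Cfg A b1 b2 b3 t) :
    Cfg {z : ℂ | (starRingEnd ℂ) z ∈ A} b2 b1 b3 t := by
  have hc : ∀ x : ℝ, (starRingEnd ℂ) (e x) = e (-x) := by
    intro x
    apply Complex.ext <;> simp
  refine ⟨by linarith [h.sum], h.t0, h.h2, h.h1, h.h3, h.p2, h.p1, h.p3, ?_, ?_, ?_, ?_, ?_, ?_⟩
  · intro z hz
    -- apply the covering to `q * conj z`
    have hz' : (e (b1 + b2) * (starRingEnd ℂ) z).re ^ 2 + (e (b1 + b2) * (starRingEnd ℂ) z).im ^ 2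
        ≤ 1 := by
      rw [mul_nrm]; simpa using hz
    rcases h.cov _ hz' with h' | ⟨w, hw, hzw⟩ | ⟨w, hw, hzw⟩
    · right; left
      refine ⟨(starRingEnd ℂ) (e (b1 + b2) * (starRingEnd ℂ) z), by simpa using h', ?_⟩
      rw [map_mul, hc, Complex.conj_conj, ← mul_assoc, ← e_add]
      rw [show b2 + b1 + -(b1 + b2) = 0 by ring, e_zero, one_mul]
    · left
      have : w = (starRingEnd ℂ) z := (mul_left_cancel₀ (e_ne_zero _) hzw).symm
      simpa [this] using hw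
    · right; right
      refine ⟨(starRingEnd ℂ) w, by simpa using hw, ?_⟩
      have h3 : (starRingEnd ℂ) z = e (-b2) * (w - (2 * t : ℝ)) := by
        have : e (-(b1+b2)) * (e (b1 + b2) * (starRingEnd ℂ) z)
          = e (-(b1+b2)) * (e b1 * (w - (2 * t : ℝ))) := by rw [hzw]
        rw [← mul_assoc, e_neg_mul, one_mul, ← mul_assoc, ← e_add] at this
        rw [this]; congr 2; ring
      have h4 := congrArg (starRingEnd ℂ) h3
      rw [Complex.conj_conj, map_mul, hc, neg_neg, map_sub, Complex.conj_ofReal] at h4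
      exact h4
  · intro z w hz hw hzw
    refine h.n12 ((starRingEnd ℂ) w) ((starRingEnd ℂ) z) hw hz ?_
    rw [hzw, map_mul, hc, ← mul_assoc, ← e_add]
    rw [show b1 + b2 + -(b2 + b1) = 0 by ring, e_zero, one_mul]
  · intro z w hz hw hzw
    refine h.n23 ((starRingEnd ℂ) z) ((starRingEnd ℂ) w) hz hw ?_
    rw [hzw, map_mul, hc, map_sub, Complex.conj_ofReal, ← mul_assoc, ← e_add]
    congr 2; ring
  · intro z w hz hw hzw
    refine h.n13 ((starRingEnd ℂ) z) ((starRingEnd ℂ) w) hz hw ?_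
    have h5 : z = e (-b1) * (w - (2 * t : ℝ)) := by
      have : e (-(b2+b1)) * (e (b2 + b1) * z) = e (-(b2+b1)) * (e b2 * (w - (2 * t : ℝ))) := by
        rw [hzw]
      rw [← mul_assoc, e_neg_mul, one_mul, ← mul_assoc, ← e_add] at this
      rw [this]; congr 2; ring
    rw [h5, map_mul, hc, neg_neg, map_sub, Complex.conj_ofReal]
  · intro z hz
    simpa using h.in1 _ hz
  · intro z hz
    simpa using h.in2 _ hz

end Cfg

end Pool.Agent.H32.Disc
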