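import Pool.Agent.H32.Disc.CaseY

set_option autoImplicit false

open Real

namespace Pool.Agent.H32.Disc

variable {A : Set ℂ} {b1 b2 b3 t δ : ℝ}

lemma cgt {δ x : ℝ} (_hδ : 0 < δ) (hδ' : δ ≤ π) (h1 : -((π + δ) / 2) < x) (h2 : x < (π + δ) / 2) :
    -sin (δ / 2) < cos x := by
  have e1 : cos ((π + δ) / 2) = - sin (δ / 2) := by
    rw [show (π + δ) / 2 = δ / 2 + π / 2 by ring, cos_add_pi_div_two]
  rw [← e1, ← cos_abs x]
  apply cos_lt_cos_of_nonneg_of_le_pi (abs_nonneg _) (by linarith)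
  rw [abs_lt]; exact ⟨h1, h2⟩

lemma clt {δ x : ℝ} (hδ : 0 < δ) (hδ' : δ ≤ π) (h1 : (π - δ) / 2 < x)
    (h2 : x < 2 * π - (π - δ) / 2) : cos x < sin (δ / 2) := by
  have := cgt (δ := δ) (x := x - π) hδ hδ' (by linarith) (by linarith)
  rw [cos_sub_pi] at this
  linarith

/-- relation between the parameter `t` and the angle `δ` -/
structure Del (b1 b2 b3 t δ : ℝ) : Prop where
  t_eq : t = sin (δ / 2)
  pos : 0 < δ
  le3 : δ ≤ π / 3
  l1 : δ ≤ b1
  l2 : δ ≤ b2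
  l3 : δ ≤ b3

namespace Cfg

lemma exists_del (h : Cfg A b1 b2 b3 t) : Del b1 b2 b3 t (2 * arcsin t) := by
  have ht := h.t0
  have ht2 := h.t_le
  have hsum := h.sum
  have hp1 := h.p1
  have hp2 := h.p2
  have hp3 := h.p3
  have hπ := pi_pos
  have key : ∀ b : ℝ, 0 < b → b < π → t ≤ sin (b / 2) → 2 * arcsin t ≤ b := by
    intro b hb hb' htb
    have : arcsin t ≤ b / 2 := by
      rw [arcsin_le_iff_le_sin' ⟨by linarith, by linarith⟩]
      exact htb
    linarith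
  refine ⟨?_, ?_, ?_, key b1 hp1 (by linarith) h.h1, key b2 hp2 (by linarith) h.h2,
    key b3 hp3 (by linarith) h.h3⟩
  · rw [show 2 * arcsin t / 2 = arcsin t by ring, sin_arcsin (by linarith) (by linarith)]
  · have := arcsin_pos.2 ht; linarith
  · have := key (π / 3) (by linarith) (by linarith) (by
      rw [show π / 3 / 2 = π / 6 by ring, sin_pi_div_six]; exact ht2)
    exact this

/-- case P1 -/
lemma P1 (h : Cfg A b1 b2 b3 t) (hd : Del b1 b2 b3 t δ) (h3 : (π - δ) / 2 < b3)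
    (h3' : b3 < (2 * π + δ) / 3) : False := by
  have hsum := h.sum
  have hp1 := h.p1
  have hp2 := h.p2
  have hp3 := h.p3
  have hπ := pi_pos
  obtain ⟨ht, hδ, hδ3, hl1, hl2, hl3⟩ := hd
  have hδπ : δ ≤ π := by linarith
  obtain ⟨θ, hθ1, hθ2⟩ := exists_between
    (show max (b1 - (π + δ) / 2) (2 * b3 - (π + δ) / 2 - π)
      < min ((π + δ) / 2 - b3) (b3 - b2 - (π - δ) / 2) from by
      rw [max_lt_iff, lt_min_iff, lt_min_iff]
      refine ⟨⟨?_, ?_⟩, ?_, ?_⟩ <;> linarith)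
  rw [max_lt_iff] at hθ1
  rw [lt_min_iff] at hθ2
  obtain ⟨hθa, hθb⟩ := hθ1
  obtain ⟨hθc, hθd⟩ := hθ2
  have hA1 : e θ ∈ A := by
    apply h.F1 (e_sq θ)
    · rw [e_re, e_im, ← cos_sub, ← cos_neg, ht]
      apply clt hδ hδπ <;> linarith
    · rw [e_re, e_im, ← cos_sub, ht]
      apply cgt hδ hδπ <;> linarith
  obtain ⟨w, hw, hwz⟩ := h.F2 (z := e (θ + 2 * (b1 + b2))) (e_sq _) (by
      rw [e_re, show θ + 2 * (b1 + b2) = 2 * π - (2 * b3 - θ) by linarith, cos_two_pi_sub, ht]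
      apply clt hδ hδπ <;> linarith) (by
      rw [e_re, e_im, ← cos_sub, show θ + 2 * (b1 + b2) - b1 = π - (b3 - b2 - θ) + (b1 + b2 + b3 - π)
        by ring, hsum, sub_self, add_zero, cos_pi_sub, ht]
      have := clt (δ := δ) (x := b3 - b2 - θ) hδ hδπ (by linarith) (by linarith)
      linarith)
  refine h.n12 w (e θ) hw hA1 ?_
  have e1 : e (b1 + b2) * w = e (b1 + b2) * (e (b1 + b2) * e θ) := by
    rw [← hwz, ← e_add, ← e_add]; congr 1; ring
  exact mul_left_cancel₀ (e_ne_zero _) e1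

lemma psi_pt (b1 t ω : ℝ) : e (b1 + ω + π) = e b1 * (((2 * t : ℝ) : ℂ) - e ω - (2 * t : ℝ)) := by
  rw [e_add, e_add, e_pi]; ring

lemma basic3 (h : Cfg A b1 b2 b3 t) (hd : Del b1 b2 b3 t δ) {ω : ℝ}
    (h1 : -((π + δ) / 2) < b1 + ω) (h2 : b1 + ω < (π + δ) / 2)
    (h3 : -((π + δ) / 2) < b2 - ω) (h4 : b2 - ω < (π + δ) / 2) :
    ((2 * t : ℝ) : ℂ) - e ω ∈ A := by
  have hπ := pi_pos
  obtain ⟨ht, hδ, hδ3, hl1, hl2, hl3⟩ := hd
  have hδπ : δ ≤ π := by linarith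
  obtain ⟨w, hw, hwz⟩ := h.F3 (z := e (b1 + ω + π)) (e_sq _) (by
    rw [e_re, cos_add_pi]
    have := cgt (δ := δ) (x := b1 + ω) hδ hδπ h1 h2
    linarith) (by
    rw [e_re, e_im, ← cos_sub, show b1 + ω + π - (b1 + b2) = -(b2 - ω) + π by ring, cos_add_pi,
      cos_neg]
    have := cgt (δ := δ) (x := b2 - ω) hδ hδπ h3 h4
    linarith)
  rw [psi_pt b1 t ω] at hwz
  have := mul_left_cancel₀ (e_ne_zero _) hwz
  rw [sub_left_inj] at this
  rw [this]; exact hw

/-- the angle `ε` with `sin (f - ε) = d sin f` -/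
lemma exists_eps {t f : ℝ} (ht : 0 < t) (ht2 : t ≤ 1 / 2) (hf0 : 0 ≤ f) (hf : f ≤ π / 2) :
    ∃ ε : ℝ, 0 ≤ ε ∧ ε ≤ f ∧ sin (f - ε) = 2 * t * sin f := by
  have hπ := pi_pos
  have hs : 0 ≤ sin f := sin_nonneg_of_nonneg_of_le_pi hf0 (by linarith)
  have hs1 := sin_le_one f
  have h1 : 2 * t * sin f ≤ sin f := by nlinarith
  have h0 : 0 ≤ 2 * t * sin f := by positivity
  refine ⟨f - arcsin (2 * t * sin f), ?_, ?_, ?_⟩
  · have : arcsin (2 * t * sin f) ≤ arcsin (sin f) := monotone_arcsin h1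
    rw [arcsin_sin (by linarith) hf] at this
    linarith
  · have := arcsin_nonneg.2 h0
    linarith
  · rw [sub_sub_cancel, sin_arcsin (by linarith) (by linarith)]

/-- case P2 -/
lemma P2 (h : Cfg A b1 b2 b3 t) (hd : Del b1 b2 b3 t δ) (h3 : (2 * π - δ) / 3 < b3) : False := by
  have hsum := h.sum
  have hp1 := h.p1
  have hp2 := h.p2
  have hp3 := h.p3
  have hπ := pi_pos
  have hδ := hd.pos
  have hδ3 := hd.le3
  obtain ⟨ε, hε0, hεf, hε⟩ := exists_eps (t := t) (f := (b1 + b2) / 2) h.t0 h.t_le (by linarith)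
    (by linarith)
  have hy1 := h.basic3 hd (ω := ε) (by linarith) (by linarith) (by linarith) (by linarith)
  have hy2 := h.basic3 hd (ω := -ε) (by linarith) (by linarith) (by linarith) (by linarith)
  refine h.n12 _ _ hy1 hy2 ?_
  -- d - e ε = e (2 f) (d - e (-ε))
  set f := (b1 + b2) / 2 with hf
  have q1 : e (b1 + b2) = e f * e f := by rw [← e_add]; congr 1; rw [hf]; ring
  have q2 : e f * e (-f) = 1 := e_mul_neg f
  have q3 : e ε = e f * e (ε - f) := by rw [← e_add]; congr 1; ring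
  have q4 : e (-ε) = e (-f) * e (f - ε) := by rw [← e_add]; congr 1; ring
  have q5 : (2 * t : ℝ) * (e (-f) - e f) = e (ε - f) - e (f - ε) := by
    apply Complex.ext
    · simp only [Complex.mul_re, Complex.sub_re, Complex.sub_im, Complex.ofReal_re,
        Complex.ofReal_im, e_re, e_im, cos_neg, show ε - f = -(f - ε) by ring]
      ring
    · simp only [Complex.mul_im, Complex.sub_re, Complex.sub_im, Complex.ofReal_re,
        Complex.ofReal_im, e_re, e_im, sin_neg, show ε - f = -(f - ε) by ring]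
      linarith
  rw [q1, q3, q4]
  linear_combination (e f) * q5 + (-(2 * t : ℝ) : ℂ) * q2 - e f * e (f - ε) * (-q2)

end Cfg

end Pool.Agent.H32.Disc
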