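import Pool.Agent.H32.Disc.CaseB

set_option autoImplicit false

open Real

namespace Pool.Agent.H32.Disc

variable {A : Set ℂ} {b1 b2 b3 t δ : ℝ}

namespace Cfg

/-- the arc lemma -/
lemma arcI (h : Cfg A b1 b2 b3 t) (hd : Del b1 b2 b3 t δ) (h13 : b1 ≤ b3) (h23 : b2 ≤ b3)
    (h3 : b3 ≤ (π - δ) / 2) {ω : ℝ} (hω1 : -(2 * b3 - (π - δ) / 2) < ω)
    (hω2 : ω < 2 * b3 - (π - δ) / 2) : ((2 * t : ℝ) : ℂ) - e ω ∈ A := by
  have hsum := h.sum
  have hp1 := h.p1
  have hp2 := h.p2
  have hp3 := h.p3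
  have hπ := pi_pos
  have hd' := hd
  obtain ⟨ht, hδ, hδ3, hl1, hl2, hl3⟩ := hd'
  have hδπ : δ ≤ π := by linarith
  by_cases c1 : b1 + ω < (π + δ) / 2
  · by_cases c2 : b2 - ω < (π + δ) / 2
    · exact h.basic3 hd (by linarith) c1 (by linarith) c2
    · push Not at c2
      rcases h.cov (e (b1 + ω + π)) (e_sq _).le with h' | ⟨w, hw, hwz⟩ | ⟨w, hw, hwz⟩
      · exfalso
        have := h.out1 (e_sq _) h'
        rw [e_re, cos_add_pi] at this
        have := cgt (δ := δ) (x := b1 + ω) hδ hδπ (by linarith) c1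
        linarith
      · exfalso
        have hv : e (b1 + ω + π - 2 * (b1 + b2)) ∈ A := by
          apply h.F1 (e_sq _)
          · rw [e_re, e_im, ← cos_sub,
              show b1 + ω + π - 2 * (b1 + b2) - (b1 + b2) = (2 * b3 - (b2 - ω)) - π by linarith,
              cos_sub_pi]
            have := cgt (δ := δ) (x := 2 * b3 - (b2 - ω)) hδ hδπ (by linarith) (by linarith)
            linarith
          · rw [e_re, e_im, ← cos_sub,
              show b1 + ω + π - 2 * (b1 + b2) - b1 = (2 * b3 + ω) - π by linarith,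
              cos_sub_pi]
            have := clt (δ := δ) (x := 2 * b3 + ω) hδ hδπ (by linarith) (by linarith)
            linarith
        refine h.n12 w _ hw hv ?_
        have e1 : e (b1 + b2) * w = e (b1 + b2) * (e (b1 + b2) * e (b1 + ω + π - 2 * (b1 + b2))) := by
          rw [← hwz, ← e_add, ← e_add]; congr 1; ring
        exact mul_left_cancel₀ (e_ne_zero _) e1
      · rw [psi_pt b1 t ω] at hwz
        have := mul_left_cancel₀ (e_ne_zero _) hwz
        rw [sub_left_inj] at this
        rw [this]; exact hw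
  · push Not at c1
    rcases h.cov (e (b1 + ω + π)) (e_sq _).le with h' | ⟨w, hw, hwz⟩ | ⟨w, hw, hwz⟩
    · exfalso
      obtain ⟨v, hv, hvz⟩ := h.F2 (z := e (b1 + ω + π + 2 * (b1 + b2))) (e_sq _) (by
        rw [e_re, show b1 + ω + π + 2 * (b1 + b2) = -(2 * b3 - b1 - ω) + π + 2 * π by linarith,
          cos_add_two_pi, cos_add_pi, cos_neg]
        have := cgt (δ := δ) (x := 2 * b3 - b1 - ω) hδ hδπ (by linarith) (by linarith)
        linarith) (by
        rw [e_re, e_im, ← cos_sub,
          show b1 + ω + π + 2 * (b1 + b2) - b1 = -(2 * b3 - ω) + π + 2 * π by linarith,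
          cos_add_two_pi, cos_add_pi, cos_neg]
        have := clt (δ := δ) (x := 2 * b3 - ω) hδ hδπ (by linarith) (by linarith)
        linarith)
      refine h.n12 v _ hv h' ?_
      have e1 : e (b1 + b2) * v = e (b1 + b2) * (e (b1 + b2) * e (b1 + ω + π)) := by
        rw [← hvz, ← e_add, ← e_add]; congr 1; ring
      exact mul_left_cancel₀ (e_ne_zero _) e1
    · exfalso
      have := h.out2 (e_sq _) hw hwz
      rw [e_re, e_im, ← cos_sub, show b1 + ω + π - (b1 + b2) = -(b2 - ω) + π by ring, cos_add_pi,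
        cos_neg] at this
      have := cgt (δ := δ) (x := b2 - ω) hδ hδπ (by linarith) (by linarith)
      linarith
    · rw [psi_pt b1 t ω] at hwz
      have := mul_left_cancel₀ (e_ne_zero _) hwz
      rw [sub_left_inj] at this
      rw [this]; exact hw

/-- case C4 -/
lemma C4 (h : Cfg A b1 b2 b3 t) (hd : Del b1 b2 b3 t δ) (h13 : b1 < b3) (h23 : b2 < b3)
    (h12 : b1 ≤ b2) (h3 : b3 ≤ (π - δ) / 2) : False := by
  have hsum := h.sum
  have hp1 := h.p1
  have hp2 := h.p2
  have hp3 := h.p3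
  have hπ := pi_pos
  have hδ := hd.pos
  have hδ3 := hd.le3
  have ht0 := h.t0
  have hδlt : δ < π / 3 := by have := hd.l1; linarith
  have htlt : t < 1 / 2 := by
    rw [hd.t_eq, ← sin_pi_div_six]
    apply sin_lt_sin_of_lt_of_le_pi_div_two <;> linarith
  set f := (3 * b3 - π) / 2 with hf
  have hf0 : 0 < f := by linarith
  obtain ⟨ε, hε0, hεf, hε⟩ := exists_eps (t := t) (f := f) h.t0 h.t_le hf0.le (by linarith)
  have hy1 := h.arcI hd h13.le h23.le h3 (ω := ε) (by linarith) (by linarith)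
  have hy2 := h.arcI hd h13.le h23.le h3 (ω := -ε) (by linarith) (by linarith)
  set r := cos (f - ε) - 2 * t * cos f with hr
  have hcf : 0 < cos f := cos_pos_of_mem_Ioo ⟨by linarith, by linarith⟩
  have hr0 : 0 < r := by
    have : cos f ≤ cos (f - ε) := by
      apply cos_le_cos_of_nonneg_of_le_pi <;> linarith
    nlinarith
  have hyr1 : ((2 * t : ℝ) : ℂ) - e ε = - ((r : ℝ) * e f) := by
    have q3 : e ε = e f * e (ε - f) := by rw [← e_add]; congr 1; ring
    have q5 : (2 * t : ℝ) * e (-f) - e (ε - f) = - (r : ℝ) := by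
      apply Complex.ext
      · simp only [Complex.mul_re, Complex.sub_re, Complex.ofReal_re, Complex.neg_re,
          Complex.ofReal_im, e_re, e_im, cos_neg, show ε - f = -(f - ε) by ring]
        rw [hr]; ring
      · simp only [Complex.mul_im, Complex.sub_im, Complex.ofReal_re, Complex.neg_im,
          Complex.ofReal_im, e_re, e_im, sin_neg, show ε - f = -(f - ε) by ring]
        linarith
    rw [q3]
    linear_combination (e f) * q5 + (-(2 * t : ℝ) : ℂ) * e_mul_neg f
  have hyr2 : ((2 * t : ℝ) : ℂ) - e (-ε) = - ((r : ℝ) * e (-f)) := by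
    have q3 : e (-ε) = e (-f) * e (f - ε) := by rw [← e_add]; congr 1; ring
    have q5 : (2 * t : ℝ) * e f - e (f - ε) = - (r : ℝ) := by
      apply Complex.ext
      · simp only [Complex.mul_re, Complex.sub_re, Complex.ofReal_re, Complex.neg_re,
          Complex.ofReal_im, e_re, e_im]
        rw [hr]; ring
      · simp only [Complex.mul_im, Complex.sub_im, Complex.ofReal_re, Complex.neg_im,
          Complex.ofReal_im, e_re, e_im]
        linarith
    rw [q3]
    linear_combination (e (-f)) * q5 + (-(2 * t : ℝ) : ℂ) * e_neg_mul f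
  have hrn : r ^ 2 + 4 * t ^ 2 + 4 * t * r * cos f = 1 := by
    have h1 := congrArg Complex.re hyr1
    have h2 := congrArg Complex.im hyr1
    simp only [Complex.mul_re, Complex.mul_im, Complex.sub_re, Complex.sub_im, Complex.ofReal_re,
      Complex.ofReal_im, e_re, e_im, Complex.neg_re, Complex.neg_im] at h1 h2
    have h3 : cos ε = 2 * t + r * cos f := by linarith
    have h4 : sin ε = r * sin f := by linarith
    have h5 := cos_sq_add_sin_sq ε
    have h6 := cos_sq_add_sin_sq f
    rw [h3, h4] at h5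
    linear_combination h5 - r ^ 2 * h6
  -- z = q^2 y_+ = r e ((b1+b2)/2)
  set z : ℂ := (r : ℝ) * e ((b1 + b2) / 2) with hz
  have hz1 : z = e (b1 + b2) * (e (b1 + b2) * (((2 * t : ℝ) : ℂ) - e ε)) := by
    rw [hyr1, hz, show (b1 + b2) / 2 = (b1 + b2) + ((b1 + b2) + (f + -π)) by rw [hf]; linarith,
      e_add (b1 + b2) (b1 + b2 + (f + -π)), e_add (b1 + b2) (f + -π), e_add f (-π),
      show e (-π) = -1 by apply Complex.ext <;> simp]
    ring
  have hz2 : e (b1 + b2) * z = ((2 * t : ℝ) : ℂ) - e (-ε) := by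
    rw [hyr2, hz, show -f = (b1 + b2) + ((b1 + b2) / 2 + -π) by rw [hf]; linarith,
      e_add (b1 + b2), e_add ((b1 + b2) / 2), show e (-π) = -1 by
        apply Complex.ext <;> simp]
    ring
  have hzn : z.re ^ 2 + z.im ^ 2 ≤ 1 := by
    rw [hz1, mul_nrm, mul_nrm]
    exact h.in1 _ hy1
  rcases h.cov z hzn with h' | ⟨w, hw, hwz⟩ | ⟨w, hw, hwz⟩
  · exact h.n12 _ z hy2 h' hz2.symm
  · have : w = e (b1 + b2) * (((2 * t : ℝ) : ℂ) - e ε) := by
      rw [hz1] at hwz
      exact (mul_left_cancel₀ (e_ne_zero _) hwz).symm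
    exact h.n12 w _ hw hy1 this
  · have hw1 : w = (r : ℝ) * e ((b2 - b1) / 2) + (2 * t : ℝ) := by
      have := inv_step hwz.symm
      rw [hz] at this
      have h2 : e (-b1) * ((r : ℝ) * e ((b1 + b2) / 2)) = (r : ℝ) * e ((b2 - b1) / 2) := by
        rw [show (b2 - b1) / 2 = -b1 + (b1 + b2) / 2 by ring, e_add]; ring
      rw [h2] at this
      rw [← this]; ring
    have h4 := h.in1 w hw
    rw [hw1] at h4
    simp only [Complex.mul_re, Complex.mul_im, Complex.add_re, Complex.add_im, Complex.ofReal_re,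
      Complex.ofReal_im, e_re, e_im] at h4
    have h5 := cos_sq_add_sin_sq ((b2 - b1) / 2)
    have h6 : r ^ 2 + 4 * t ^ 2 + 4 * t * r * cos ((b2 - b1) / 2) ≤ 1 := by nlinarith
    have h7 : cos f < cos ((b2 - b1) / 2) := by
      apply cos_lt_cos_of_nonneg_of_le_pi <;> linarith
    have := mul_pos (mul_pos ht0 hr0) (sub_pos.2 h7)
    nlinarith

end Cfg

end Pool.Agent.H32.Disc
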