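import Pool.Agent.H32.Disc.BK

set_option autoImplicit false

open Real

namespace Pool.Agent.H32.Disc

variable {A : Set ℂ} {b1 b2 b3 t : ℝ}

lemma kap {W t x y : ℝ} (hW : 0 < W) (hx : 0 < x) (hxy : x ^ 2 + y ^ 2 = 1)
    (h : t ^ 2 * W < x ^ 2) : t * y < √(1 / W - t ^ 2) * x := by
  have hx1 : x ^ 2 ≤ 1 := by nlinarith [sq_nonneg y]
  have hr : 0 ≤ 1 / W - t ^ 2 := by
    rw [sub_nonneg, le_div_iff₀ hW]; linarith
  have e1 : t * y ≤ |t * y| := le_abs_self _
  refine lt_of_le_of_lt e1 ?_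
  apply abs_lt_of_sq_lt_sq _ (by positivity)
  rw [mul_pow, mul_pow, sq_sqrt hr]
  have h2 : t ^ 2 < x ^ 2 / W := by rw [lt_div_iff₀ hW]; exact h
  have h3 : (1 / W - t ^ 2) * x ^ 2 = x ^ 2 / W - t ^ 2 * x ^ 2 := by ring
  rw [h3]
  nlinarith

lemma kap_eq {W t : ℝ} (hW : 0 < W) (h : t ^ 2 * W ≤ 1) :
    (t ^ 2 + √(1 / W - t ^ 2) ^ 2) * W = 1 := by
  have hr : 0 ≤ 1 / W - t ^ 2 := by
    rw [sub_nonneg, le_div_iff₀ hW]; linarith
  rw [sq_sqrt hr]
  field_simp
  ring

lemma kap_pos {W t : ℝ} (hW : 0 < W) (h : t ^ 2 * W < 1) : 0 < √(1 / W - t ^ 2) := by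
  apply sqrt_pos.2
  rw [sub_pos, lt_div_iff₀ hW]; linarith

namespace Cfg

lemma W_eq (h : Cfg A b1 b2 b3 t) : 3 + 2 * cos b3 - 2 * cos b1 + 2 * cos b2
    = 1 + 4 * sin (b1 / 2) * cos ((b2 - b3) / 2) + 4 * sin (b1 / 2) ^ 2 := by
  have hsum := h.sum
  have f2 := cos_add_cos b2 b3
  have hhs1 : sin (b1 / 2) = cos ((b2 + b3) / 2) := by
    rw [show b1 / 2 = π / 2 - (b2 + b3) / 2 by linarith, sin_pi_div_two_sub]
  have h4 := cos_two_mul (b1 / 2)
  rw [show 2 * (b1 / 2) = b1 by ring] at h4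
  have h5 := sin_sq_add_cos_sq (b1 / 2)
  have h6 : cos b1 = 1 - 2 * sin (b1 / 2) ^ 2 := by linarith
  rw [← hhs1] at f2
  linarith

/-- region X -/
lemma caseX (h : Cfg A b1 b2 b3 t) (h12 : b1 ≤ b2) (h32 : b3 < b2) (hb2 : b2 < 2 * π / 3) :
    False := by
  have ht := h.t0
  have hsum := h.sum
  have hp1 := h.p1
  have hp2 := h.p2
  have hp3 := h.p3
  have hπ := pi_pos
  set s := sin (b1 / 2) with hs
  set c := cos (b1 / 2) with hc
  have hsc : s ^ 2 + c ^ 2 = 1 := sin_sq_add_cos_sq _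
  have hs0 : 0 < s := sin_pos_of_pos_of_lt_pi (by linarith) (by linarith)
  have hc0 : 0 < c := cos_pos_of_mem_Ioo ⟨by linarith, by linarith⟩
  have hcos2 : 0 < 1 + 2 * cos b2 := by
    have := cos_lt_cos_of_nonneg_of_le_pi (x := b2) (y := 2 * π / 3) hp2.le (by linarith) hb2
    rw [show 2 * π / 3 = π - π / 3 by ring, cos_pi_sub, cos_pi_div_three] at this
    linarith
  set W := 3 + 2 * cos b3 - 2 * cos b1 + 2 * cos b2 with hW
  have hWe : W = 1 + 4 * s * cos ((b2 - b3) / 2) + 4 * s ^ 2 := h.W_eq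
  have hcd : 0 < cos ((b2 - b3) / 2) := cos_pos_of_mem_Ioo ⟨by linarith, by linarith⟩
  have hW1 : 1 ≤ W := by nlinarith [mul_pos hs0 hcd]
  have hW0 : 0 < W := by linarith
  have hW2 : W ≤ (1 + 2 * s) ^ 2 := by
    have := cos_le_one ((b2 - b3) / 2)
    nlinarith [mul_nonneg hs0.le (sub_nonneg.2 this)]
  have hs1 : s < 1 := by nlinarith [sq_nonneg (1 - s)]
  by_cases hcase : t ^ 2 * W < s ^ 2
  · -- BK (a)
    have hlt1 : t ^ 2 * W < 1 := by nlinarith
    have hk0 : 0 < √(1 / W - t ^ 2) := kap_pos hW0 hlt1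
    refine h.BKa h32 (κ := √(1 / W - t ^ 2)) hk0.le (kap_eq hW0 hlt1.le) ?_ ?_ hcos2 ?_
    · have c1 : 0 < cos ((b1 - b2) / 2) := cos_pos_of_mem_Ioo ⟨by linarith, by linarith⟩
      have s1 : sin ((b1 - b2) / 2) ≤ 0 :=
        sin_nonpos_of_nonpos_of_neg_pi_le (by linarith) (by linarith)
      nlinarith [mul_pos hk0 c1]
    · have c1 : 0 < cos ((b1 - b3) / 2) := cos_pos_of_mem_Ioo ⟨by linarith, by linarith⟩
      by_cases h13 : b3 ≤ b1
      · have s1 : 0 ≤ sin ((b1 - b3) / 2) :=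
          sin_nonneg_of_nonneg_of_le_pi (by linarith) (by linarith)
        nlinarith [mul_pos hk0 c1]
      · push Not at h13
        have e1 : s ≤ cos ((b1 - b3) / 2) := by
          rw [hs, show b1 / 2 = π / 2 - (b2 + b3) / 2 by linarith, sin_pi_div_two_sub,
            show (b1 - b3) / 2 = -((b3 - b1) / 2) by ring, cos_neg]
          apply cos_le_cos_of_nonneg_of_le_pi <;> linarith
        have := kap (W := W) (t := t) (x := cos ((b1 - b3) / 2)) (y := -sin ((b1 - b3) / 2)) hW0 c1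
          (by have := sin_sq_add_cos_sq ((b1 - b3) / 2); linarith) (by nlinarith)
        linarith
    · exact kap hW0 hs0 hsc hcase
  · -- M1
    push Not at hcase
    have hst : s ≤ t * (1 + 2 * s) := by
      have : s ^ 2 ≤ (t * (1 + 2 * s)) ^ 2 := by
        rw [mul_pow]; nlinarith [sq_nonneg t]
      exact le_of_sq_le_sq this (by positivity)
    have hcb1 : cos b1 = 1 - 2 * s ^ 2 := by
      have := cos_two_mul (b1 / 2)
      rw [show 2 * (b1 / 2) = b1 by ring] at this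
      linarith
    have hts : t ≤ 1 - 2 * s ^ 2 := by
      refine h.h3.trans ?_
      rw [← hcb1, show b3 / 2 = π / 2 - (b1 + b2) / 2 by linarith, sin_pi_div_two_sub]
      apply cos_le_cos_of_nonneg_of_le_pi <;> linarith
    have hgold : 0 < 1 - s - s ^ 2 := by
      by_contra hcon
      push Not at hcon
      have h1 : s ≤ (1 - 2 * s ^ 2) * (1 + 2 * s) := hst.trans
        (mul_le_mul_of_nonneg_right hts (by linarith))
      have h2 : 3 / 5 < s := by nlinarith
      nlinarith [mul_nonneg (neg_nonneg.2 hcon) (show 0 ≤ 4 * s - 2 by linarith)]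
    have hc3 : 0 ≤ cos b3 := cos_nonneg_of_mem_Icc ⟨by linarith, by linarith⟩
    refine h.M1 hc3 hcos2 ?_
    -- (β)
    set H := √(1 - 4 * t ^ 2 * cos (b2 / 2) ^ 2) with hH
    have hH0 : 0 ≤ H := sqrt_nonneg _
    have hH1 : H ≤ 1 := by
      rw [hH, sqrt_le_one]
      nlinarith [sq_nonneg (t * cos (b2 / 2))]
    set S := sin ((b2 - b1) / 2) with hS
    set C := cos ((b2 - b1) / 2) with hC
    have hS0 : 0 ≤ S := sin_nonneg_of_nonneg_of_le_pi (by linarith) (by linarith)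
    have hS1 : S ≤ 1 := sin_le_one _
    have hC1 : C ≤ 1 := cos_le_one _
    have hcd2 : cos (b2 - b1) = 1 - 2 * S ^ 2 := by
      have := cos_two_mul ((b2 - b1) / 2)
      rw [show 2 * ((b2 - b1) / 2) = b2 - b1 by ring] at this
      have h' := sin_sq_add_cos_sq ((b2 - b1) / 2)
      linarith
    have hsn : sin (b1 - b2 / 2) = s * C - c * S := by
      rw [show b1 - b2 / 2 = b1 / 2 - (b2 - b1) / 2 by ring, sin_sub]
    have hcs : s ≤ c := by
      rw [hs, hc, ← cos_pi_div_two_sub]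
      apply cos_le_cos_of_nonneg_of_le_pi <;> linarith
    have hss : s ^ 2 ≤ 1 / 2 := by nlinarith
    rw [hcb1, hcd2, hsn]
    have hpos : 0 < 1 + (1 - 2 * s ^ 2) + (1 - 2 * S ^ 2) := by
      have : -(1 / 2) < cos (b2 - b1) := by
        have := cos_lt_cos_of_nonneg_of_le_pi (x := b2 - b1) (y := 2 * π / 3) (by linarith)
          (by linarith) (by linarith)
        rw [show 2 * π / 3 = π - π / 3 by ring, cos_pi_sub, cos_pi_div_three] at this
        linarith
      rw [hcd2] at this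
      linarith
    -- main inequality
    have hmain : (1 + 2 * s) * (s * C - c * S) < s * (1 + (1 - 2 * s ^ 2) + (1 - 2 * S ^ 2)) := by
      have k1 : (1 + 2 * s) * (s * C - c * S) ≤ (1 + 2 * s) * (s - c * S) := by
        apply mul_le_mul_of_nonneg_left _ (by linarith)
        nlinarith [mul_nonneg hs0.le (sub_nonneg.2 hC1)]
      have k2 : 0 ≤ S * ((1 + 2 * s) * c - 2 * s * S) := by
        apply mul_nonneg hS0
        have m1 : 1 - c ≤ s ^ 2 := by nlinarith
        have m2 : 2 * s * S ≤ 2 * s := by nlinarith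
        have m3 : 2 * s * (1 - c) ≤ 2 * s * s ^ 2 := by
          apply mul_le_mul_of_nonneg_left m1 (by linarith)
        have m4 : 2 * s * s ^ 2 ≤ s := by nlinarith
        nlinarith
      have k3 : 0 < 2 * s * (1 - s - s ^ 2) := by positivity
      nlinarith
    by_cases hneg : s * C - c * S ≤ 0
    · have : H * (s * C - c * S) ≤ 0 := mul_nonpos_of_nonneg_of_nonpos hH0 hneg
      have := mul_pos ht hpos
      linarith
    · push Not at hneg
      have e1 : H * (s * C - c * S) ≤ s * C - c * S := by nlinarith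
      refine lt_of_le_of_lt e1 ?_
      -- (1+2s) * (sC - cS) < s * P ≤ t (1+2s) P
      have e2 : s * (1 + (1 - 2 * s ^ 2) + (1 - 2 * S ^ 2)) ≤
          (t * (1 + 2 * s)) * (1 + (1 - 2 * s ^ 2) + (1 - 2 * S ^ 2)) :=
        mul_le_mul_of_nonneg_right hst hpos.le
      have e3 : (1 + 2 * s) * (s * C - c * S) <
          (1 + 2 * s) * (t * (1 + (1 - 2 * s ^ 2) + (1 - 2 * S ^ 2))) := by
        calc _ < _ := hmain
          _ ≤ _ := e2
          _ = _ := by ring
      exact lt_of_mul_lt_mul_left e3 (by linarith)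

end Cfg

end Pool.Agent.H32.Disc
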