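import Pool.Agent.H32.Disc.CaseX

set_option autoImplicit false

open Real

namespace Pool.Agent.H32.Disc

variable {A : Set ℂ} {b1 b2 b3 t : ℝ}

lemma uu_out {u N : ℂ} {t : ℝ} (ht : 0 < t) (hu : u.re ^ 2 + u.im ^ 2 = 1)
    (hN : u.re * N.re + u.im * N.im < t * (N.re ^ 2 + N.im ^ 2)) :
    1 < (u - (2 * t : ℝ) * N).re ^ 2 + (u - (2 * t : ℝ) * N).im ^ 2 := by
  rw [nrm_sub, hu]
  simp only [Complex.mul_re, Complex.mul_im, Complex.ofReal_re, Complex.ofReal_im]
  nlinarith [mul_pos ht (sub_pos.2 hN)]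

lemma inv_step {x : ℝ} {a b : ℂ} (h : e x * a = b) : a = e (-x) * b := by
  rw [← h, ← mul_assoc, e_neg_mul, one_mul]

lemma y2_S2 {a a2 : ℝ} (ha0 : 0 < a) (ha3 : a ≤ π / 3) (h1 : 3 * a / 2 ≤ a2) (h2 : a2 ≤ 2 * a) :
    0 ≤ sin a2 + sin a - sin (2 * a) ∧
      (3 / 4 ≤ sin a → 1 / 2 ≤ sin a2 + sin a - sin (2 * a)) := by
  have hπ := pi_pos
  have hsa0 : 0 < sin a := sin_pos_of_pos_of_lt_pi (by linarith) (by linarith)
  by_cases hbig : π / 2 ≤ a2
  · have : sin (2 * a) ≤ sin a2 := by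
      rw [← sin_pi_sub (2 * a), ← sin_pi_sub a2]
      apply sin_le_sin_of_le_of_le_pi_div_two <;> linarith
    constructor
    · linarith
    · intro h'; linarith
  · push Not at hbig
    have h1 : sin (3 * a / 2) ≤ sin a2 := by
      apply sin_le_sin_of_le_of_le_pi_div_two <;> linarith
    constructor
    · have h2 := sin_sub_sin (2 * a) a
      rw [show (2 * a - a) / 2 = a / 2 by ring, show (2 * a + a) / 2 = 3 * a / 2 by ring] at h2
      have h3 := sin_three_mul (a / 2)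
      rw [show 3 * (a / 2) = 3 * a / 2 by ring] at h3
      have h4 : 0 ≤ sin (a / 2) := sin_nonneg_of_nonneg_of_le_pi (by linarith) (by linarith)
      have h5 : sin (a / 2) ≤ 1 / 2 := by
        rw [← sin_pi_div_six]
        apply sin_le_sin_of_le_of_le_pi_div_two <;> linarith
      have h6 := cos_le_one (3 * a / 2)
      have h9 := mul_nonneg h4 (sub_nonneg.2 h6)
      have h7 : sin (a / 2) ^ 2 ≤ 1 / 4 := by nlinarith only [h4, h5]
      have h8 : sin (a / 2) ^ 3 ≤ sin (a / 2) * (1 / 4) := by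
        rw [show sin (a / 2) ^ 3 = sin (a / 2) * sin (a / 2) ^ 2 by ring]
        exact mul_le_mul_of_nonneg_left h7 h4
      linarith
    · intro h'
      have h2 : sin a ≤ sin (3 * a / 2) := by
        apply sin_le_sin_of_le_of_le_pi_div_two <;> linarith
      have h3 := sin_le_one (2 * a)
      linarith

lemma y2_out2 {b1 b3 t κ : ℝ} (hp1 : 0 < b1) (h13 : b1 ≤ b3) (ha3 : b1 + b3 ≤ π / 3)
    (ht : 0 < t) (hκ2 : 2 * t ≤ κ) :
    0 < t * (1 + cos (b1 + 2 * b3) - cos (b1 + b3) + cos (2 * (b1 + b3))) +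
        κ * (sin (b1 + 2 * b3) + sin (b1 + b3) - sin (2 * (b1 + b3))) := by
  have hπ := pi_pos
  have hk0 : 0 < κ := by linarith
  set a := b1 + b3 with ha
  set a2 := b1 + 2 * b3 with ha2
  have hsa0 : 0 < sin a := sin_pos_of_pos_of_lt_pi (by linarith) (by linarith)
  have hca : 1 / 2 ≤ cos a := by
    rw [← cos_pi_div_three]
    apply cos_le_cos_of_nonneg_of_le_pi <;> linarith
  have hcsa := cos_sq_add_sin_sq a
  have hca2 : cos (2 * a) ≤ cos a2 := by
    apply cos_le_cos_of_nonneg_of_le_pi <;> linarith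
  have hc2a := cos_two_mul a
  have hcle := cos_le_one a
  have hS2 := y2_S2 (a := a) (a2 := a2) (by linarith) ha3 (by linarith) (by linarith)
  obtain ⟨hS2a, hS2b⟩ := hS2
  set C := cos a
  set S := sin a
  by_cases h34 : 3 / 4 ≤ S
  · have k1 := hS2b h34
    have k2 : -(1 / 2) ≤ 1 + cos a2 - C + cos (2 * a) := by
      nlinarith only [hca2, hc2a, hca]
    have k3 : κ * (1 / 2) ≤ κ * (sin a2 + S - sin (2 * a)) :=
      mul_le_mul_of_nonneg_left k1 hk0.le
    have k4 : t * (-(1 / 2)) ≤ t * (1 + cos a2 - C + cos (2 * a)) :=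
      mul_le_mul_of_nonneg_left k2 ht.le
    linarith
  · push Not at h34
    have k1 : 7 / 16 < C ^ 2 := by nlinarith only [h34, hcsa, hsa0]
    have k2 : 66 / 100 < C := by nlinarith only [k1, hca]
    have k3 : 0 < 1 + cos a2 - C + cos (2 * a) := by nlinarith only [hca2, hc2a, k2]
    have k4 := mul_nonneg hk0.le hS2a
    have k5 := mul_pos ht k3
    linarith

lemma y2_out3 {b1 b3 : ℝ} (hp1 : 0 < b1) (h13 : b1 ≤ b3) (ha3 : b1 + b3 ≤ π / 3) :
    0 < 2 + cos (b1 + 3 * b3) + cos b3 + cos b1 - cos (b1 + b3) + cos (2 * (b1 + b3)) +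
      cos (2 * b1 + 3 * b3) ∧
    0 ≤ 2 * sin (b1 + 2 * b3) + sin (b1 + 3 * b3) + sin (b1 + b3) - sin b1 - sin b3
      - sin (2 * (b1 + b3)) - sin (2 * b1 + 3 * b3) := by
  have hπ := pi_pos
  set a := b1 + b3 with ha
  set a2 := b1 + 2 * b3 with ha2
  set a3 := b1 + 3 * b3 with ha3'
  set a4 := 2 * b1 + 3 * b3 with ha4
  have hc2a : -(1 / 2) ≤ cos (2 * a) := by
    have := cos_le_cos_of_nonneg_of_le_pi (x := 2 * a) (y := 2 * π / 3) (by linarith)
      (by linarith) (by linarith)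
    rw [show 2 * π / 3 = π - π / 3 by ring, cos_pi_sub, cos_pi_div_three] at this
    linarith
  have hm1 := neg_one_le_cos a3
  have hm2 := neg_one_le_cos a4
  have hR1 : 1 + cos a ≤ cos b1 + cos b3 := by
    have h1 := cos_add_cos b1 b3
    have h2 := cos_two_mul (a / 2)
    rw [show 2 * (a / 2) = a by ring] at h2
    have h3 : cos (a / 2) ≤ cos ((b1 - b3) / 2) := by
      rw [show (b1 - b3) / 2 = -((b3 - b1) / 2) by ring, cos_neg]
      apply cos_le_cos_of_nonneg_of_le_pi <;> linarith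
    have h4 : 0 ≤ cos (a / 2) := cos_nonneg_of_mem_Icc ⟨by linarith, by linarith⟩
    rw [← ha] at h1
    nlinarith only [h1, h2, h3, h4]
  refine ⟨by linarith, ?_⟩
  have h1 := sin_sub_sin a2 b1
  rw [show (a2 - b1) / 2 = b3 by rw [ha2]; ring, show (a2 + b1) / 2 = a by rw [ha2, ha]; ring] at h1
  have h2 := sin_sub_sin a2 b3
  rw [show (a2 - b3) / 2 = a / 2 by rw [ha2, ha]; ring,
    show (a2 + b3) / 2 = a3 / 2 by rw [ha2, ha3']; ring] at h2
  have h3 := sin_sub_sin (2 * a) a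
  rw [show (2 * a - a) / 2 = a / 2 by ring, show (2 * a + a) / 2 = 3 * a / 2 by ring] at h3
  have h4 := sin_sub_sin a4 a3
  rw [show (a4 - a3) / 2 = b1 / 2 by rw [ha4, ha3']; ring,
    show (a4 + a3) / 2 = 3 * a2 / 2 by rw [ha4, ha3', ha2]; ring] at h4
  have k1 : cos (3 * a / 2) ≤ cos (a3 / 2) := by
    apply cos_le_cos_of_nonneg_of_le_pi <;> linarith
  have k2 : 0 ≤ sin (a / 2) := sin_nonneg_of_nonneg_of_le_pi (by linarith) (by linarith)
  have k3 : 1 / 2 ≤ cos a := by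
    rw [← cos_pi_div_three]
    apply cos_le_cos_of_nonneg_of_le_pi <;> linarith
  have k4 : 0 ≤ sin b3 := sin_nonneg_of_nonneg_of_le_pi (by linarith) (by linarith)
  have k5 : sin b3 = 2 * sin (b3 / 2) * cos (b3 / 2) := by
    rw [← sin_two_mul]; congr 1; ring
  have k6 : cos (3 * a2 / 2) ≤ cos (b3 / 2) := by
    apply cos_le_cos_of_nonneg_of_le_pi <;> linarith
  have k7 : sin (b1 / 2) ≤ sin (b3 / 2) := by
    apply sin_le_sin_of_le_of_le_pi_div_two <;> linarith
  have k8 : 0 ≤ cos (b3 / 2) := cos_nonneg_of_mem_Icc ⟨by linarith, by linarith⟩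
  have k9 : 0 ≤ sin (b1 / 2) := sin_nonneg_of_nonneg_of_le_pi (by linarith) (by linarith)
  have m1 : sin (b1 / 2) * cos (3 * a2 / 2) ≤ sin (b3 / 2) * cos (b3 / 2) := by
    calc sin (b1 / 2) * cos (3 * a2 / 2) ≤ sin (b1 / 2) * cos (b3 / 2) :=
          mul_le_mul_of_nonneg_left k6 k9
      _ ≤ _ := mul_le_mul_of_nonneg_right k7 k8
  have m2 : 0 ≤ sin (a / 2) * (cos (a3 / 2) - cos (3 * a / 2)) :=
    mul_nonneg k2 (sub_nonneg.2 k1)
  have m3 : 0 ≤ sin b3 * (cos a - 1 / 2) := mul_nonneg k4 (sub_nonneg.2 k3)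
  nlinarith only [h1, h2, h3, h4, k5, m1, m2, m3]

namespace Cfg

/-- region Y, first part (for the mirrored configuration) -/
lemma caseY1 (h : Cfg A b1 b2 b3 t) (hb1 : 2 * π / 3 ≤ b1) (h32 : b3 < b2) :
    False := by
  have ht := h.t0
  have hsum := h.sum
  have hp1 := h.p1
  have hp2 := h.p2
  have hp3 := h.p3
  have hπ := pi_pos
  set s := sin (b1 / 2) with hs
  set c := cos (b1 / 2) with hc
  have hsc : s ^ 2 + c ^ 2 = 1 := sin_sq_add_cos_sq _
  have hs0 : 0 < s := sin_pos_of_pos_of_lt_pi (by linarith) (by linarith)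
  have hcos2 : 0 < 1 + 2 * cos b2 := by
    have := cos_pos_of_mem_Ioo (x := b2) ⟨by linarith, by linarith⟩
    linarith
  set W := 3 + 2 * cos b3 - 2 * cos b1 + 2 * cos b2 with hW
  have hWe : W = 1 + 4 * s * cos ((b2 - b3) / 2) + 4 * s ^ 2 := h.W_eq
  have hcd : 0 < cos ((b2 - b3) / 2) := cos_pos_of_mem_Ioo ⟨by linarith, by linarith⟩
  have hW1 : 1 ≤ W := by nlinarith [mul_pos hs0 hcd]
  have hW0 : 0 < W := by linarith
  have hW2 : W ≤ (1 + 2 * s) ^ 2 := by
    have := cos_le_one ((b2 - b3) / 2)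
    nlinarith [mul_nonneg hs0.le (sub_nonneg.2 this)]
  set X := sin (b2 + b3 / 2) with hX
  have hX0 : 0 < X := sin_pos_of_pos_of_lt_pi (by linarith) (by linarith)
  have hXs : X ≤ s := by
    have h1 : X ≤ sin (π / 3) := by
      apply sin_le_sin_of_le_of_le_pi_div_two <;> linarith
    have h2 : sin (π / 3) ≤ s := by
      apply sin_le_sin_of_le_of_le_pi_div_two <;> linarith
    linarith
  have hcX : cos ((b1 - b2) / 2) = X := by
    rw [show (b1 - b2) / 2 = π / 2 - (b2 + b3 / 2) by linarith, cos_pi_div_two_sub]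
  have hs1 : s = cos ((b2 + b3) / 2) := by
    rw [hs, show b1 / 2 = π / 2 - (b2 + b3) / 2 by linarith, sin_pi_div_two_sub]
  have htX : t * (1 + 2 * s) < X := by
    have h1 : t * (1 + 2 * s) ≤ sin (b3 / 2) * (1 + 2 * s) :=
      mul_le_mul_of_nonneg_right h.h3 (by linarith)
    have h2 := two_mul_sin_mul_cos (b3 / 2) ((b2 + b3) / 2)
    rw [show b3 / 2 - (b2 + b3) / 2 = -(b2 / 2) by ring, sin_neg,
      show b3 / 2 + (b2 + b3) / 2 = b3 + b2 / 2 by ring, ← hs1] at h2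
    have h3 : sin (b3 / 2) < sin (b2 / 2) := by
      apply sin_lt_sin_of_lt_of_le_pi_div_two <;> linarith
    have h4 : sin (b3 + b2 / 2) < X := by
      apply sin_lt_sin_of_lt_of_le_pi_div_two <;> linarith
    linarith
  have htX2 : t ^ 2 * W < X ^ 2 := by
    have h1 : (t * (1 + 2 * s)) ^ 2 < X ^ 2 := by
      have : 0 ≤ t * (1 + 2 * s) := by positivity
      nlinarith
    rw [mul_pow] at h1
    nlinarith [sq_nonneg t]
  have hs11 : s ≤ 1 := sin_le_one _
  have hlt1 : t ^ 2 * W < 1 := by nlinarith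
  have hk0 : 0 < √(1 / W - t ^ 2) := kap_pos hW0 hlt1
  refine h.BKa h32 (κ := √(1 / W - t ^ 2)) hk0.le (kap_eq hW0 hlt1.le) ?_ ?_ hcos2 ?_
  · rw [hcX]
    have := kap (W := W) (t := t) (x := X) (y := sin ((b1 - b2) / 2)) hW0 hX0
      (by have := sin_sq_add_cos_sq ((b1 - b2) / 2); rw [hcX] at this; linarith) htX2
    linarith
  · have c1 : 0 < cos ((b1 - b3) / 2) := cos_pos_of_mem_Ioo ⟨by linarith, by linarith⟩
    have s1 : 0 ≤ sin ((b1 - b3) / 2) :=
      sin_nonneg_of_nonneg_of_le_pi (by linarith) (by linarith)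
    nlinarith [mul_pos hk0 c1]
  · refine kap hW0 hs0 hsc (lt_of_lt_of_le htX2 ?_)
    nlinarith

/-- region Y, second part -/
lemma caseY2 (h : Cfg A b1 b2 b3 t) (hb2 : 2 * π / 3 ≤ b2) (h13 : b1 ≤ b3) :
    False := by
  have ht := h.t0
  have hsum := h.sum
  have hp1 := h.p1
  have hp2 := h.p2
  have hp3 := h.p3
  have hπ := pi_pos
  have hπ2 := pi_lt_d2
  set s := sin (b1 / 2) with hs
  have hs0 : 0 < s := sin_pos_of_pos_of_lt_pi (by linarith) (by linarith)
  have hs26 : s < 27 / 100 := by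
    have : s < b1 / 2 := sin_lt (by linarith)
    linarith
  set W := 3 + 2 * cos b3 - 2 * cos b1 + 2 * cos b2 with hW
  have hWe : W = 1 + 4 * s * cos ((b2 - b3) / 2) + 4 * s ^ 2 := h.W_eq
  have hcd : 0 < cos ((b2 - b3) / 2) := cos_pos_of_mem_Ioo ⟨by linarith, by linarith⟩
  have hW1 : 1 ≤ W := by nlinarith [mul_pos hs0 hcd]
  have hW0 : 0 < W := by linarith
  have hW2 : W ≤ (1 + 2 * s) ^ 2 := by
    have := cos_le_one ((b2 - b3) / 2)
    nlinarith [mul_nonneg hs0.le (sub_nonneg.2 this)]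
  have htW : t ^ 2 * W < 1 / 5 := by
    have h1 : t * (1 + 2 * s) ≤ s * (1 + 2 * s) := mul_le_mul_of_nonneg_right h.h1 (by linarith)
    have h2 : s * (1 + 2 * s) < 42 / 100 := by nlinarith
    have h3 : (t * (1 + 2 * s)) ^ 2 < (42 / 100) ^ 2 := by
      have : 0 ≤ t * (1 + 2 * s) := by positivity
      nlinarith
    rw [mul_pow] at h3
    nlinarith [sq_nonneg t]
  have hlt1 : t ^ 2 * W < 1 := by linarith
  set κ := √(1 / W - t ^ 2) with hκdef
  have hk0 : 0 < κ := kap_pos hW0 hlt1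
  have hκ2 : 2 * t ≤ κ := by
    apply le_sqrt_of_sq_le
    rw [le_sub_iff_add_le, le_div_iff₀ hW0]
    nlinarith
  have hn := kap_eq hW0 hlt1.le
  rw [← hκdef] at hn
  obtain ⟨huA, y, hyA, hy⟩ := h.BK0 (by linarith) (κ := κ) hk0.le hn (by
      have c1 : 0 < cos ((b1 - b2) / 2) := cos_pos_of_mem_Ioo ⟨by linarith, by linarith⟩
      have s1 : sin ((b1 - b2) / 2) ≤ 0 :=
        sin_nonpos_of_nonpos_of_neg_pi_le (by linarith) (by linarith)
      nlinarith [mul_pos hk0 c1]) (by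
      have c1 : 1 / 2 ≤ cos ((b1 - b3) / 2) := by
        rw [show (b1 - b3) / 2 = -((b3 - b1) / 2) by ring, cos_neg, ← cos_pi_div_three]
        apply cos_le_cos_of_nonneg_of_le_pi <;> linarith
      have := kap (W := W) (t := t) (x := cos ((b1 - b3) / 2)) (y := -sin ((b1 - b3) / 2)) hW0
        (by linarith)
        (by have := sin_sq_add_cos_sq ((b1 - b3) / 2); linarith) (by nlinarith)
      linarith)
  set u := uu b1 b3 t κ with hudef
  have hcos2 : cos (b1 + b3) = - cos b2 := by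
    rw [show b1 + b3 = π - b2 by linarith, cos_pi_sub]
  have hnrm : u.re ^ 2 + u.im ^ 2 = 1 := by
    rw [hudef, uu_nrm, hcos2, ← hn]; ring
  have hg : e (-b1 - 2 * b2) * e (b1 + 2 * b2) = 1 := by
    rw [← e_add, show -b1 - 2 * b2 + (b1 + 2 * b2) = 0 by ring, e_zero]
  have hyu : y = e (-b1 - 2 * b2) * (u - (2 * t : ℝ)) := by
    rw [inv_step hy, ← mul_assoc, ← e_add]; congr 2; ring
  -- angles
  set a := b1 + b3 with ha
  have ha3 : a ≤ π / 3 := by linarith
  have d0 := uu_dot b1 b3 t κ 0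
  have d2 := uu_dot b1 b3 t κ (-(b1 + 2 * b3))
  have d3 := uu_dot b1 b3 t κ (-(b1 + 3 * b3))
  rw [← hudef] at d0 d2 d3
  rw [cos_zero, sin_zero, zero_add, zero_sub, cos_neg b1, sin_neg b1, mul_one, mul_zero,
    add_zero] at d0
  rw [show -(b1 + 2 * b3) + b3 = -a by rw [ha]; ring,
    show -(b1 + 2 * b3) - b1 = -(2 * a) by rw [ha]; ring] at d2
  rw [show -(b1 + 3 * b3) + b3 = -(b1 + 2 * b3) by ring,
    show -(b1 + 3 * b3) - b1 = -(2 * b1 + 3 * b3) by ring] at d3
  simp only [cos_neg, sin_neg] at d2 d3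
  set a2 := b1 + 2 * b3 with ha2
  set a3 := b1 + 3 * b3 with ha3'
  set a4 := 2 * b1 + 3 * b3 with ha4
  have hgA : e (b1 + 2 * b2) = e (-a2) := by
    rw [show b1 + 2 * b2 = -a2 + (π + π) by linarith, e_add, e_add, e_pi]; ring
  -- the point T
  have hTn : (e (-b2) * (y - (2 * t : ℝ))).re ^ 2 + (e (-b2) * (y - (2 * t : ℝ))).im ^ 2 ≤ 1 := by
    rw [mul_nrm]
    have := h.in2 y hyA
    simpa using this
  rcases h.cov _ hTn with h' | ⟨w, hw, hwz⟩ | ⟨w, hw, hwz⟩
  · refine h.n23 _ y h' hyA ?_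
    rw [← mul_assoc, ← e_add]; congr 2; ring
  · -- w in A is out of E
    have hw1 : w = e (-b1 - 2 * b2) * (y - (2 * t : ℝ)) := by
      rw [inv_step hwz.symm, ← mul_assoc, ← e_add]; congr 2; ring
    have hw2 : w - (2 * t : ℝ) = e (2 * (-b1 - 2 * b2)) *
        (u - (2 * t : ℝ) * (1 + e (-a2) + e (-(2 * a2)))) := by
      have q1 : e (2 * (-b1 - 2 * b2)) = e (-b1 - 2 * b2) * e (-b1 - 2 * b2) := by
        rw [← e_add]; congr 1; ring
      have q2 : e (-(2 * a2)) = e (b1 + 2 * b2) * e (b1 + 2 * b2) := by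
        rw [hgA, ← e_add]; congr 1; ring
      rw [hw1, hyu, q1, q2, ← hgA]
      linear_combination (2 * t : ℝ) * (e (-b1 - 2 * b2) + 1 +
        e (-b1 - 2 * b2) * e (b1 + 2 * b2)) * hg
    have h3 := h.in2 w hw
    have h4 : (w - (2 * t : ℝ)).re ^ 2 + (w - (2 * t : ℝ)).im ^ 2 ≤ 1 := by
      simpa using h3
    rw [hw2, mul_nrm] at h4
    refine absurd h4 (not_le.2 (uu_out ht hnrm ?_))
    have hNre : (1 + e (-a2) + e (-(2 * a2))).re = (1 + 2 * cos a2) * cos a2 := by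
      simp only [Complex.add_re, Complex.one_re, e_re, cos_neg, cos_two_mul]; ring
    have hNim : (1 + e (-a2) + e (-(2 * a2))).im = -((1 + 2 * cos a2) * sin a2) := by
      simp only [Complex.add_im, Complex.one_im, e_im, sin_neg, sin_two_mul]; ring
    rw [hNre, hNim]
    have hcs := cos_sq_add_sin_sq a2
    have hc2 : 0 < 1 + 2 * cos a2 := by
      have := cos_lt_cos_of_nonneg_of_le_pi (x := a2) (y := 2 * π / 3) (by linarith) (by linarith)
        (by linarith)
      rw [show 2 * π / 3 = π - π / 3 by ring, cos_pi_sub, cos_pi_div_three] at this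
      linarith
    have e1 : t * (((1 + 2 * cos a2) * cos a2) ^ 2 + (-((1 + 2 * cos a2) * sin a2)) ^ 2)
        = (1 + 2 * cos a2) * (t * (1 + 2 * cos a2)) := by
      linear_combination (t * (1 + 2 * cos a2) ^ 2) * hcs
    have e2 : u.re * ((1 + 2 * cos a2) * cos a2) + u.im * -((1 + 2 * cos a2) * sin a2)
        = (1 + 2 * cos a2) * (u.re * cos a2 + u.im * -sin a2) := by ring
    rw [e1, e2]
    apply mul_lt_mul_of_pos_left _ hc2
    rw [d2]
    have hfin := y2_out2 (b1 := b1) (b3 := b3) hp1 h13 ha3 ht hκ2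
    rw [← ha, ← ha2] at hfin
    linarith
  · -- w in A is out of D
    have hw1 : w = e (-(b1 + b2)) * (y - (2 * t : ℝ)) + (2 * t : ℝ) := by
      have := inv_step hwz.symm
      rw [← mul_assoc, ← e_add, show -b1 + -b2 = -(b1 + b2) by ring] at this
      rw [← this]; ring
    have hα : e (b1 + b2) = - e (-b3) := by
      rw [show b1 + b2 = π + -b3 by linarith, e_add, e_pi]; ring
    have hα' : e (-(b1 + b2)) * e (b1 + b2) = 1 := e_neg_mul _
    have hw2 : w = e (-(b1 + b2) + (-b1 - 2 * b2)) *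
        (u - (2 * t : ℝ) * (1 + e (-a2) + e (-a3))) := by
      have q2 : e (-a3) = - (e (b1 + b2) * e (b1 + 2 * b2)) := by
        rw [hgA, hα, show -a3 = -b3 + -a2 by rw [ha3', ha2]; ring, e_add]; ring
      rw [hw1, hyu, q2, ← hgA, e_add]
      linear_combination (2 * t : ℝ) * (e (-(b1 + b2)) -
        e (-(b1 + b2)) * e (b1 + b2)) * hg - (2 * t : ℝ) * hα'
    have h4 := h.in1 w hw
    rw [hw2, mul_nrm] at h4
    refine absurd h4 (not_le.2 (uu_out ht hnrm ?_))
    simp only [Complex.add_re, Complex.one_re, e_re, cos_neg, Complex.add_im, Complex.one_im,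
      e_im, sin_neg, zero_add]
    have hb3e : cos b3 = cos a3 * cos a2 + sin a3 * sin a2 := by
      rw [← cos_sub]; congr 1; ring
    have hcs2 := cos_sq_add_sin_sq a2
    have hcs3 := cos_sq_add_sin_sq a3
    have e1 : (1 + cos a2 + cos a3) ^ 2 + (-sin a2 + -sin a3) ^ 2
        = 3 + 2 * cos a2 + 2 * cos a3 + 2 * cos b3 := by
      rw [hb3e]; linear_combination hcs2 + hcs3
    have e2 : u.re * (1 + cos a2 + cos a3) + u.im * (-sin a2 + -sin a3)
        = u.re + (u.re * cos a2 + u.im * -sin a2) + (u.re * cos a3 + u.im * -sin a3) := by ring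
    rw [e1, e2, d2, d3, d0]
    obtain ⟨hR, hI⟩ := y2_out3 (b1 := b1) (b3 := b3) hp1 h13 ha3
    rw [← ha, ← ha2, ← ha3', ← ha4] at hI
    rw [← ha, ← ha3', ← ha4] at hR
    have m1 := mul_pos ht hR
    have m2 := mul_nonneg hk0.le hI
    linarith

end Cfg

end Pool.Agent.H32.Disc
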