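import Pool.Agent.H32.Disc.Line

set_option autoImplicit false

open Real

namespace Pool.Agent.H32.Disc

variable {A : Set ℂ} {b1 b2 b3 t δ : ℝ}

lemma omega_sq : e (2 * π / 3) * e (2 * π / 3) = -1 - e (2 * π / 3) := by
  have h1 : cos (2 * π / 3) = -(1 / 2) := by
    rw [show 2 * π / 3 = π - π / 3 by ring, cos_pi_sub, cos_pi_div_three]
  have h2 : sin (2 * π / 3) = √3 / 2 := by
    rw [show 2 * π / 3 = π - π / 3 by ring, sin_pi_sub, sin_pi_div_three]
  have h3 : √3 * √3 = 3 := mul_self_sqrt (by norm_num)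
  apply Complex.ext
  · simp only [Complex.mul_re, Complex.sub_re, Complex.neg_re, Complex.one_re, e_re, e_im, h1, h2]
    nlinarith
  · simp only [Complex.mul_im, Complex.sub_im, Complex.neg_im, Complex.one_im, e_re, e_im, h1, h2]
    ring

lemma e_third : e (π / 3) = 1 + e (2 * π / 3) := by
  have h1 : cos (2 * π / 3) = -(1 / 2) := by
    rw [show 2 * π / 3 = π - π / 3 by ring, cos_pi_sub, cos_pi_div_three]
  have h2 : sin (2 * π / 3) = √3 / 2 := by
    rw [show 2 * π / 3 = π - π / 3 by ring, sin_pi_sub, sin_pi_div_three]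
  apply Complex.ext
  · simp only [Complex.add_re, Complex.one_re, e_re, h1, cos_pi_div_three]; norm_num
  · simp only [Complex.add_im, Complex.one_im, e_im, h2, sin_pi_div_three]; norm_num

/-- lattice points -/
noncomputable def L (t : ℝ) (p : ℤ × ℤ) : ℂ := (2 * t : ℝ) * ((p.1 : ℂ) + (p.2 : ℂ) * e (2 * π / 3))

def rotP (p : ℤ × ℤ) : ℤ × ℤ := (-p.2, p.1 - p.2)
def rotI (p : ℤ × ℤ) : ℤ × ℤ := (p.2 - p.1, -p.1)
def psiP (p : ℤ × ℤ) : ℤ × ℤ := (p.1 - 1 - p.2, p.1 - 1)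
def psiI (p : ℤ × ℤ) : ℤ × ℤ := (p.2 + 1, p.2 - p.1)

lemma rotP_rotI (p : ℤ × ℤ) : rotP (rotI p) = p := by
  ext <;> simp [rotP, rotI]
lemma psiP_psiI (p : ℤ × ℤ) : psiP (psiI p) = p := by
  ext <;> simp [psiP, psiI]
lemma rotI_rotP (p : ℤ × ℤ) : rotI (rotP p) = p := by
  ext <;> simp [rotP, rotI]
lemma psiI_psiP (p : ℤ × ℤ) : psiI (psiP p) = p := by
  ext <;> simp [psiP, psiI]

lemma L_rotP (t : ℝ) (p : ℤ × ℤ) : L t (rotP p) = e (2 * π / 3) * L t p := by
  simp only [L, rotP]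
  push_cast
  linear_combination (-(2 * t : ℂ) * (p.2 : ℂ)) * omega_sq

lemma L_psiP (t : ℝ) (p : ℤ × ℤ) : L t (psiP p) = e (π / 3) * (L t p - (2 * t : ℝ)) := by
  simp only [L, psiP]
  rw [e_third]
  push_cast
  linear_combination (-(2 * t : ℂ) * (p.2 : ℂ)) * omega_sq

lemma L_nrm (t : ℝ) (p : ℤ × ℤ) : (L t p).re ^ 2 + (L t p).im ^ 2
    = 4 * t ^ 2 * ((p.1 : ℝ) ^ 2 - p.1 * p.2 + (p.2 : ℝ) ^ 2) := by
  have h1 : cos (2 * π / 3) = -(1 / 2) := by
    rw [show 2 * π / 3 = π - π / 3 by ring, cos_pi_sub, cos_pi_div_three]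
  have h2 : sin (2 * π / 3) = √3 / 2 := by
    rw [show 2 * π / 3 = π - π / 3 by ring, sin_pi_sub, sin_pi_div_three]
  have h3 : √3 * √3 = 3 := mul_self_sqrt (by norm_num)
  have hre : (L t p).re = 2 * t * (p.1 - p.2 / 2) := by
    simp only [L, Complex.mul_re, Complex.add_re, Complex.add_im, Complex.mul_im,
      Complex.ofReal_re, Complex.ofReal_im, Complex.intCast_re, Complex.intCast_im, e_re, e_im,
      h1, h2]
    ring
  have him : (L t p).im = 2 * t * (p.2 * (√3 / 2)) := by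
    simp [L, h1, h2]
  rw [hre, him]
  linear_combination (t ^ 2 * (p.2 : ℝ) ^ 2) * h3

lemma L_inj {t : ℝ} (ht : 0 < t) {p p' : ℤ × ℤ} (h : L t p = L t p') : p = p' := by
  have h0 : L t (p.1 - p'.1, p.2 - p'.2) = 0 := by
    have : L t (p.1 - p'.1, p.2 - p'.2) = L t p - L t p' := by
      simp only [L]; push_cast; ring
    rw [this, h, sub_self]
  have h1 := L_nrm t (p.1 - p'.1, p.2 - p'.2)
  rw [h0] at h1
  simp only [Complex.zero_re, Complex.zero_im] at h1
  push_cast at h1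
  have h2 : ((p.1 : ℝ) - p'.1) ^ 2 - ((p.1 : ℝ) - p'.1) * ((p.2 : ℝ) - p'.2)
      + ((p.2 : ℝ) - p'.2) ^ 2 = 0 := by
    have : 0 < 4 * t ^ 2 := by positivity
    nlinarith
  have h3 : (p.1 : ℝ) - p'.1 = 0 := by nlinarith [sq_nonneg (((p.1 : ℝ) - p'.1) - 2 * ((p.2 : ℝ) - p'.2))]
  have h4 : (p.2 : ℝ) - p'.2 = 0 := by nlinarith [sq_nonneg (((p.2 : ℝ) - p'.2) - 2 * ((p.1 : ℝ) - p'.1))]
  ext
  · exact_mod_cast sub_eq_zero.1 h3
  · exact_mod_cast sub_eq_zero.1 h4

lemma L_finite {t : ℝ} (ht : 0 < t) :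
    {p : ℤ × ℤ | (L t p).re ^ 2 + (L t p).im ^ 2 ≤ 1}.Finite := by
  set K : ℤ := ⌈1 / t⌉ with hK
  have hKt : 1 / t ≤ K := Int.le_ceil _
  apply Set.Finite.subset ((Set.finite_Icc (-K) K).prod (Set.finite_Icc (-K) K))
  intro p hp
  rw [Set.mem_ofPred_eq, L_nrm] at hp
  have hb : ∀ x y : ℤ, 4 * t ^ 2 * ((x : ℝ) ^ 2 - x * y + (y : ℝ) ^ 2) ≤ 1 → -K ≤ x ∧ x ≤ K := by
    intro x y hxy
    have h1 : t ^ 2 * (x : ℝ) ^ 2 ≤ 1 := by
      nlinarith [sq_nonneg (t * ((x : ℝ) - 2 * y)), sq_nonneg (t * (x : ℝ))]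
    have h2 : |(x : ℝ)| ≤ 1 / t := by
      rw [le_div_iff₀ ht]
      have h3 : (|(x : ℝ)| * t) ^ 2 ≤ 1 := by rw [mul_pow, sq_abs]; linarith
      have h4 : 0 ≤ |(x : ℝ)| * t := by positivity
      nlinarith
    have h3 := abs_le.1 (h2.trans hKt)
    constructor
    · exact_mod_cast h3.1
    · exact_mod_cast h3.2
  refine ⟨hb p.1 p.2 hp, hb p.2 p.1 ?_⟩
  have : (p.2 : ℝ) ^ 2 - p.2 * p.1 + (p.1 : ℝ) ^ 2 = (p.1 : ℝ) ^ 2 - p.1 * p.2 + (p.2 : ℝ) ^ 2 := by ring
  rw [this]; exact hp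

namespace Cfg

/-- the centre `b1 = b2 = b3 = π / 3` -/
lemma centre (h : Cfg A b1 b2 b3 t) (hb1 : b1 = π / 3) (hb2 : b2 = π / 3) : False := by
  classical
  have ht := h.t0
  have hα : b1 + b2 = 2 * π / 3 := by rw [hb1, hb2]; ring
  set X : Finset (ℤ × ℤ) := (L_finite ht).toFinset with hX
  have memX : ∀ p, p ∈ X ↔ (L t p).re ^ 2 + (L t p).im ^ 2 ≤ 1 := by
    intro p; rw [hX, Set.Finite.mem_toFinset]; rfl
  set AX : Finset (ℤ × ℤ) := X.filter (fun p => L t p ∈ A) with hAX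
  have memA : ∀ p, p ∈ AX ↔ L t p ∈ A := by
    intro p
    rw [hAX, Finset.mem_filter, memX]
    exact ⟨fun h' => h'.2, fun h' => ⟨h.in1 _ h', h'⟩⟩
  have iP : Function.Injective rotP := Function.LeftInverse.injective rotI_rotP
  have iQ : Function.Injective psiP := Function.LeftInverse.injective psiI_psiP
  have hXeq : X = AX ∪ (AX.image rotP ∪ AX.image psiP) := by
    ext p
    simp only [Finset.mem_union, Finset.mem_image]
    constructor
    · intro hp
      rw [memX] at hp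
      rcases h.cov _ hp with h' | ⟨w, hw, hwz⟩ | ⟨w, hw, hwz⟩
      · exact Or.inl ((memA p).2 h')
      · refine Or.inr (Or.inl ⟨rotI p, ?_, rotP_rotI p⟩)
        rw [memA]
        have : L t p = e (b1 + b2) * L t (rotI p) := by rw [hα, ← L_rotP, rotP_rotI]
        rw [this] at hwz
        rw [mul_left_cancel₀ (e_ne_zero _) hwz]; exact hw
      · refine Or.inr (Or.inr ⟨psiI p, ?_, psiP_psiI p⟩)
        rw [memA]
        have : L t p = e b1 * (L t (psiI p) - (2 * t : ℝ)) := by rw [hb1, ← L_psiP, psiP_psiI]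
        rw [this] at hwz
        have := mul_left_cancel₀ (e_ne_zero _) hwz
        rw [sub_left_inj] at this
        rw [this]; exact hw
    · rintro (hp | ⟨p', hp', rfl⟩ | ⟨p', hp', rfl⟩)
      · rw [memX]; exact h.in1 _ ((memA p).1 hp)
      · rw [memX, L_rotP, mul_nrm]; exact h.in1 _ ((memA p').1 hp')
      · rw [memX, L_psiP, mul_nrm]
        have := h.in2 _ ((memA p').1 hp')
        simpa using this
  have d1 : Disjoint AX (AX.image rotP ∪ AX.image psiP) := by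
    rw [Finset.disjoint_left]
    intro p hp hp'
    simp only [Finset.mem_union, Finset.mem_image] at hp'
    rcases hp' with ⟨p', hp', rfl⟩ | ⟨p', hp', rfl⟩
    · exact h.n12 _ _ ((memA _).1 hp) ((memA _).1 hp') (by rw [hα, L_rotP])
    · exact h.n13 _ _ ((memA _).1 hp) ((memA _).1 hp') (by rw [hb1, L_psiP])
  have d2 : Disjoint (AX.image rotP) (AX.image psiP) := by
    rw [Finset.disjoint_left]
    intro p hp hp'
    simp only [Finset.mem_image] at hp hp'
    obtain ⟨p1, hp1, rfl⟩ := hp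
    obtain ⟨p2, hp2, h12⟩ := hp'
    refine h.n23 _ _ ((memA _).1 hp1) ((memA _).1 hp2) ?_
    rw [hα, hb1, ← L_rotP, ← L_psiP, h12]
  have hcard : X.card = 3 * AX.card := by
    rw [hXeq, Finset.card_union_of_disjoint d1, Finset.card_union_of_disjoint d2,
      Finset.card_image_of_injective _ iP, Finset.card_image_of_injective _ iQ]
    ring
  -- the rotation
  have hrX : ∀ p, p ∈ X → rotP p ∈ X := by
    intro p hp
    rw [memX, L_rotP, mul_nrm, ← memX]; exact hp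
  let f : Function.End X := fun p => ⟨rotP p.1, hrX p.1 p.2⟩
  have hf : f ^ 3 ^ 1 = 1 := by
    funext p
    apply Subtype.ext
    change rotP (rotP (rotP p.1)) = p.1
    ext <;> simp [rotP] <;> ring
  have hmod := Equiv.Perm.card_fixedPoints_modEq (p := 3) (n := 1) hf
  have h0X : ((0, 0) : ℤ × ℤ) ∈ X := by
    rw [memX, L_nrm]; norm_num
  have hfix : Fintype.card (Function.fixedPoints f) = 1 := by
    rw [Fintype.card_eq_one_iff]
    refine ⟨⟨⟨(0, 0), h0X⟩, ?_⟩, ?_⟩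
    · apply Subtype.ext
      simp [f, rotP]
    · rintro ⟨⟨p, hp⟩, hp'⟩
      have h1 : rotP p = p := congrArg Subtype.val hp'
      have h2 : p = (0, 0) := by
        have h3 := congrArg Prod.fst h1
        have h4 := congrArg Prod.snd h1
        simp only [rotP] at h3 h4
        ext
        · simp only; omega
        · simp only; omega
      subst h2
      rfl
  rw [hfix, Fintype.card_coe, hcard] at hmod
  have := hmod.symm
  rw [Nat.ModEq, Nat.mul_mod_right] at this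
  omega

end Cfg

end Pool.Agent.H32.Disc
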