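import Pool.Agent.H32.Disc.Centre

set_option autoImplicit false

open Real

namespace Pool.Agent.H32.Disc

variable {A : Set ℂ} {b1 b2 b3 t δ : ℝ}

/-- no tiling configuration exists (ordered version) -/
lemma Cfg.false_of_le (h : Cfg A b1 b2 b3 t) (h12 : b1 ≤ b2) : False := by
  have hsum := h.sum
  have hπ := pi_pos
  by_cases h32 : b3 < b2
  · by_cases hb2 : b2 < 2 * π / 3
    · exact h.caseX h12 h32 hb2
    · push Not at hb2
      by_cases h31 : b3 < b1
      · exact h.mirror.caseY1 hb2 h31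
      · push Not at h31
        exact h.caseY2 hb2 h31
  · push Not at h32
    have hd := h.exists_del
    set δ := 2 * arcsin t
    have hδ := hd.pos
    by_cases hP2 : (2 * π - δ) / 3 < b3
    · exact h.P2 hd hP2
    push Not at hP2
    by_cases hP1 : (π - δ) / 2 < b3
    · exact h.P1 hd hP1 (by linarith)
    push Not at hP1
    rcases h32.lt_or_eq with h23 | h23
    · exact h.C4 hd (by linarith) h23 h12 hP1
    · by_cases h13 : b1 < b3
      · exact h.line hd h23 h13 hP1
      · push Not at h13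
        exact h.centre (by linarith) (by linarith)

lemma Cfg.false (h : Cfg A b1 b2 b3 t) : False := by
  rcases le_total b1 b2 with h12 | h12
  · exact h.false_of_le h12
  · exact h.mirror.false_of_le h12

/-- tiling by `A`, `q A`, `b (A - 2 t)` -/
structure Pre (A : Set ℂ) (q b : ℂ) (t : ℝ) : Prop where
  t0 : 0 < t
  hq : q.re ^ 2 + q.im ^ 2 = 1
  hb : b.re ^ 2 + b.im ^ 2 = 1
  cov : ∀ z : ℂ, z.re ^ 2 + z.im ^ 2 ≤ 1 → z ∈ A ∨ (∃ w ∈ A, z = q * w) ∨
    (∃ w ∈ A, z = b * (w - (2 * t : ℝ)))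
  n12 : ∀ z w : ℂ, z ∈ A → w ∈ A → z = q * w → False
  n13 : ∀ z w : ℂ, z ∈ A → w ∈ A → z = b * (w - (2 * t : ℝ)) → False
  n23 : ∀ z w : ℂ, z ∈ A → w ∈ A → q * z = b * (w - (2 * t : ℝ)) → False
  in1 : ∀ z ∈ A, z.re ^ 2 + z.im ^ 2 ≤ 1
  in2 : ∀ z ∈ A, (z.re - 2 * t) ^ 2 + z.im ^ 2 ≤ 1

lemma Pre.conj {q b : ℂ} (h : Pre A q b t) :
    Pre {z : ℂ | (starRingEnd ℂ) z ∈ A} ((starRingEnd ℂ) q) ((starRingEnd ℂ) b) t := by
  refine ⟨h.t0, by simpa using h.hq, by simpa using h.hb, ?_, ?_, ?_, ?_, ?_, ?_⟩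
  · intro z hz
    rcases h.cov ((starRingEnd ℂ) z) (by simpa using hz) with h' | ⟨w, hw, hwz⟩ | ⟨w, hw, hwz⟩
    · exact Or.inl h'
    · refine Or.inr (Or.inl ⟨(starRingEnd ℂ) w, by simpa using hw, ?_⟩)
      have := congrArg (starRingEnd ℂ) hwz
      rwa [Complex.conj_conj, map_mul] at this
    · refine Or.inr (Or.inr ⟨(starRingEnd ℂ) w, by simpa using hw, ?_⟩)
      have := congrArg (starRingEnd ℂ) hwz
      rwa [Complex.conj_conj, map_mul, map_sub, Complex.conj_ofReal] at this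
  · intro z w hz hw hzw
    refine h.n12 _ _ hz hw ?_
    rw [hzw, map_mul, Complex.conj_conj]
  · intro z w hz hw hzw
    refine h.n13 _ _ hz hw ?_
    rw [hzw, map_mul, Complex.conj_conj, map_sub, Complex.conj_ofReal]
  · intro z w hz hw hzw
    refine h.n23 _ _ hz hw ?_
    have := congrArg (starRingEnd ℂ) hzw
    rwa [map_mul, Complex.conj_conj, map_mul, map_sub, Complex.conj_ofReal, Complex.conj_conj]
      at this
  · intro z hz
    simpa using h.in1 _ hz
  · intro z hz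
    simpa using h.in2 _ hz

lemma exists_angle {q : ℂ} (hq : q.re ^ 2 + q.im ^ 2 = 1) : ∃ θ : ℝ, -π < θ ∧ θ ≤ π ∧ q = e θ := by
  refine ⟨q.arg, Complex.neg_pi_lt_arg q, Complex.arg_le_pi q, ?_⟩
  have hn : ‖q‖ = 1 := by
    have h1 : ‖q‖ ^ 2 = 1 := by
      rw [Complex.sq_norm, Complex.normSq_apply]; linarith
    have h2 := norm_nonneg q
    nlinarith
  have h0 : q ≠ 0 := by
    intro h; rw [h, norm_zero] at hn; exact zero_ne_one hn
  apply Complex.ext
  · rw [e_re, Complex.cos_arg h0, hn, div_one]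
  · rw [e_im, Complex.sin_arg, hn, div_one]

/-- the upper case `0 ≤ α` -/
lemma Pre.false_of_nonneg {α β : ℝ} (h : Pre A (e α) (e β) t) (hα0 : 0 ≤ α) (hα1 : α ≤ π)
    (hβ0 : -π < β) (hβ1 : β ≤ π) : False := by
  have hπ := pi_pos
  have ht := h.t0
  -- the point 2 t lies in A
  have h2t : ((2 * t : ℝ) : ℂ) ∈ A := by
    rcases h.cov 0 (by simp) with h' | ⟨w, hw, hwz⟩ | ⟨w, hw, hwz⟩
    · exact (h.n12 0 0 h' h' (by simp)).elim
    · have : w = 0 := by
        rcases mul_eq_zero.1 hwz.symm with h1 | h1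
        · exact absurd h1 (e_ne_zero _)
        · exact h1
      subst this
      exact (h.n12 0 0 hw hw (by simp)).elim
    · rcases mul_eq_zero.1 hwz.symm with h1 | h1
      · exact absurd h1 (e_ne_zero _)
      · rw [sub_eq_zero] at h1
        rw [← h1]; exact hw
  have ht2 : t ≤ 1 / 2 := by
    have := h.in1 _ h2t
    simp only [Complex.ofReal_re, Complex.ofReal_im] at this
    nlinarith
  have hα0' : 0 < α := by
    rcases hα0.lt_or_eq with h1 | h1
    · exact h1
    · exfalso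
      refine h.n12 _ _ h2t h2t ?_
      rw [← h1, e_zero, one_mul]
  set δ := 2 * arcsin t with hδ
  have htδ : t = sin (δ / 2) := by
    rw [hδ, show 2 * arcsin t / 2 = arcsin t by ring, sin_arcsin (by linarith) (by linarith)]
  have hδ0 : 0 < δ := by have := arcsin_pos.2 ht; linarith
  have hδ3 : δ ≤ π / 3 := by
    have h1 : arcsin t ≤ π / 6 := by
      rw [arcsin_le_iff_le_sin' ⟨by linarith, by linarith⟩, sin_pi_div_six]
      exact ht2
    linarith
  have hδπ : δ ≤ π := by linarith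
  -- F3 on the circle
  have hF3 : ∀ θ : ℝ, cos θ < t → cos (θ - α) < t → cos (θ - β) ≤ -t := by
    intro θ h1 h2
    rcases h.cov (e θ) (e_sq θ).le with h' | ⟨w, hw, hwz⟩ | ⟨w, hw, hwz⟩
    · exfalso
      have k1 := h.in2 _ h'
      have k2 := e_sq θ
      rw [e_re, e_im] at k1 k2
      nlinarith
    · exfalso
      have k1 := h.in2 _ hw
      have k2 : (e α * w).re ^ 2 + (e α * w).im ^ 2 = 1 := by rw [← hwz]; exact e_sq θ
      rw [mul_nrm] at k2
      have k3 := mul_dot α α w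
      rw [← hwz, e_re, e_im, ← cos_sub, sub_self, cos_zero, sin_zero] at k3
      nlinarith
    · have k1 := h.in1 _ hw
      have k2 : (e β * (w - (2 * t : ℝ))).re ^ 2 + (e β * (w - (2 * t : ℝ))).im ^ 2 = 1 := by
        rw [← hwz]; exact e_sq θ
      rw [mul_nrm] at k2
      have k3 := mul_dot β β (w - (2 * t : ℝ))
      rw [← hwz, e_re, e_im, ← cos_sub, sub_self, cos_zero, sin_zero] at k3
      simp only [Complex.sub_re, Complex.sub_im, Complex.ofReal_re, Complex.ofReal_im] at k2 k3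
      nlinarith
  -- α ≤ π - δ
  have hα2 : α ≤ π - δ := by
    by_contra hcon
    push Not at hcon
    have h1 : cos (α / 2) < t := by
      have : cos (α / 2) < cos ((π - δ) / 2) := by
        apply cos_lt_cos_of_nonneg_of_le_pi <;> linarith
      rw [show (π - δ) / 2 = π / 2 - δ / 2 by ring, cos_pi_div_two_sub, ← htδ] at this
      exact this
    have h2 : 0 ≤ cos (α / 2) := cos_nonneg_of_mem_Icc ⟨by linarith, by linarith⟩
    have k1 := hF3 (α / 2) h1 (by
      rw [show α / 2 - α = -(α / 2) by ring, cos_neg]; exact h1)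
    have k2 := hF3 (α / 2 + π) (by rw [cos_add_pi]; linarith) (by
      rw [show α / 2 + π - α = -(α / 2) + π by ring, cos_add_pi, cos_neg]; linarith)
    rw [show α / 2 + π - β = (α / 2 - β) + π by ring, cos_add_pi] at k2
    linarith
  -- the closed arc
  have harc : ∀ θ ∈ Set.Icc (α + (π - δ) / 2) (2 * π - (π - δ) / 2), cos (θ - β) ≤ -t := by
    have hne : α + (π - δ) / 2 ≠ 2 * π - (π - δ) / 2 := by
      intro h1; linarith
    rw [← closure_Ioo hne]
    intro θ hθ
    have hcl : IsClosed {θ : ℝ | cos (θ - β) ≤ -t} :=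
      isClosed_le (by fun_prop) continuous_const
    have hsub : Set.Ioo (α + (π - δ) / 2) (2 * π - (π - δ) / 2) ⊆ {θ : ℝ | cos (θ - β) ≤ -t} := by
      intro x hx
      apply hF3
      · rw [htδ]
        apply clt hδ0 hδπ <;> linarith [hx.1, hx.2]
      · rw [htδ]
        apply clt hδ0 hδπ <;> linarith [hx.1, hx.2]
    exact closure_minimal hsub hcl hθ
  have k1 := harc (α + (π - δ) / 2) ⟨le_rfl, by linarith⟩
  have k2 := harc (2 * π - (π - δ) / 2) ⟨by linarith, le_rfl⟩
  have hβδ : δ ≤ β := by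
    by_contra hcon
    push Not at hcon
    have := cgt (δ := δ) (x := (π - δ) / 2 + β) hδ0 hδπ (by linarith) (by linarith)
    rw [show 2 * π - (π - δ) / 2 - β = 2 * π - ((π - δ) / 2 + β) by ring, cos_two_pi_sub] at k2
    linarith
  have hαβδ : δ ≤ α - β := by
    by_contra hcon
    push Not at hcon
    have := cgt (δ := δ) (x := α + (π - δ) / 2 - β) hδ0 hδπ (by linarith) (by linarith)
    linarith
  have hsin : ∀ x : ℝ, δ ≤ x → x ≤ π → t ≤ sin (x / 2) := by
    intro x h1 h2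
    rw [htδ]
    apply sin_le_sin_of_le_of_le_pi_div_two <;> linarith
  have hab : β + (α - β) = α := by ring
  have hcfg : Cfg A β (α - β) (π - α) t := by
    refine ⟨by ring, ht, hsin _ hβδ hβ1, hsin _ hαβδ (by linarith), hsin _ (by linarith)
      (by linarith), by linarith, by linarith, by linarith, ?_, ?_, ?_, ?_, h.in1, h.in2⟩
    · rw [hab]; exact h.cov
    · rw [hab]; exact h.n12
    · exact h.n13
    · rw [hab]; exact h.n23
  exact hcfg.false

lemma Pre.false {q b : ℂ} (h : Pre A q b t) : False := by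
  obtain ⟨α, hα0, hα1, hα⟩ := exists_angle h.hq
  obtain ⟨β, hβ0, hβ1, hβ⟩ := exists_angle h.hb
  by_cases h0 : 0 ≤ α
  · subst hα hβ
    exact h.false_of_nonneg h0 hα1 hβ0 hβ1
  · push Not at h0
    have h' := h.conj
    obtain ⟨β', hβ0', hβ1', hβ'⟩ := exists_angle h'.hb
    have hα' : (starRingEnd ℂ) q = e (-α) := by
      rw [hα]; apply Complex.ext <;> simp
    rw [hα', hβ'] at h'
    exact h'.false_of_nonneg (by linarith) (by linarith) hβ0' hβ1'

/-- **Main theorem (orientation preserving case).** -/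
theorem direct (A : Set ℂ) (q b : ℂ) (d : ℝ) (hq : ‖q‖ = 1) (hb : ‖b‖ = 1) (hd : 0 < d)
    (hA1 : Disjoint A ((fun z => q * z) '' A)) (hA2 : Disjoint A ((fun z => b * (z - d)) '' A))
    (hA3 : Disjoint ((fun z => q * z) '' A) ((fun z => b * (z - d)) '' A))
    (hcov : A ∪ (fun z => q * z) '' A ∪ (fun z => b * (z - d)) '' A = Metric.closedBall 0 1) :
    False := by
  have hnrm : ∀ z : ℂ, ‖z‖ ≤ 1 ↔ z.re ^ 2 + z.im ^ 2 ≤ 1 := by
    intro z
    have h1 : ‖z‖ ^ 2 = z.re ^ 2 + z.im ^ 2 := by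
      rw [Complex.sq_norm, Complex.normSq_apply]; ring
    rw [← h1]
    have h2 := norm_nonneg z
    constructor
    · intro h; nlinarith
    · intro h; nlinarith
  have hnrm1 : ∀ z : ℂ, ‖z‖ = 1 → z.re ^ 2 + z.im ^ 2 = 1 := by
    intro z hz
    have h1 : ‖z‖ ^ 2 = z.re ^ 2 + z.im ^ 2 := by
      rw [Complex.sq_norm, Complex.normSq_apply]; ring
    rw [← h1, hz]; norm_num
  have hmem : ∀ z : ℂ, (z ∈ A ∪ (fun z => q * z) '' A ∪ (fun z => b * (z - d)) '' A) ↔ ‖z‖ ≤ 1 := by
    intro z; rw [hcov, mem_closedBall_zero_iff]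
  have hd2 : ((2 * (d / 2) : ℝ) : ℂ) = (d : ℂ) := by push_cast; ring
  have hpre : Pre A q b (d / 2) := by
    refine ⟨by linarith, hnrm1 q hq, hnrm1 b hb, ?_, ?_, ?_, ?_, ?_, ?_⟩
    · intro z hz
      rcases (hmem z).2 ((hnrm z).2 hz) with (h' | ⟨w, hw, hwz⟩) | ⟨w, hw, hwz⟩
      · exact Or.inl h'
      · exact Or.inr (Or.inl ⟨w, hw, hwz.symm⟩)
      · refine Or.inr (Or.inr ⟨w, hw, ?_⟩)
        rw [hd2]; exact hwz.symm
    · intro z w hz hw hzw
      exact Set.disjoint_left.1 hA1 hz ⟨w, hw, hzw.symm⟩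
    · intro z w hz hw hzw
      rw [hd2] at hzw
      exact Set.disjoint_left.1 hA2 hz ⟨w, hw, hzw.symm⟩
    · intro z w hz hw hzw
      rw [hd2] at hzw
      exact Set.disjoint_left.1 hA3 ⟨z, hz, rfl⟩ ⟨w, hw, hzw.symm⟩
    · intro z hz
      exact (hnrm z).1 ((hmem z).1 (Or.inl (Or.inl hz)))
    · intro z hz
      have h1 := (hmem (b * (z - d))).1 (Or.inr ⟨z, hz, rfl⟩)
      rw [norm_mul, hb, one_mul, hnrm] at h1
      simp only [Complex.sub_re, Complex.sub_im, Complex.ofReal_re, Complex.ofReal_im, sub_zero]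
        at h1
      rw [show 2 * (d / 2) = d by ring]
      exact h1
  exact hpre.false

end Pool.Agent.H32.Disc
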