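import Pool.Agent.H32.Disc.Direct
import Pool.Agent.H59.Disc.Red

set_option autoImplicit false

open Complex ComplexConjugate Metric

namespace Pool.Agent.H32.Disc

lemma nrm_le_one_iff (z : ℂ) : ‖z‖ ≤ 1 ↔ z.re ^ 2 + z.im ^ 2 ≤ 1 := by
  have h1 : ‖z‖ ^ 2 = z.re ^ 2 + z.im ^ 2 := by
    rw [Complex.sq_norm, Complex.normSq_apply]; ring
  rw [← h1]
  have h2 := norm_nonneg z
  constructor
  · intro h; nlinarith
  · intro h; nlinarith

lemma nrm_eq_one {z : ℂ} (hz : ‖z‖ = 1) : z.re ^ 2 + z.im ^ 2 = 1 := by
  have h1 : ‖z‖ ^ 2 = z.re ^ 2 + z.im ^ 2 := by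
    rw [Complex.sq_norm, Complex.normSq_apply]; ring
  rw [← h1, hz]; norm_num

/-- there is no direct configuration -/
theorem Dir_false {p : ℝ} {b q : ℂ} {A B C : Set ℂ} (H : Pool.Agent.H59.Disc.Dir p b q A B C) :
    False := by
  have hb := H.hb
  have hp := H.hp
  have H' := H.cfg
  have hbb : conj b * b = 1 := by
    rw [← Complex.normSq_eq_conj_mul_self, Complex.normSq_eq_norm_sq, hb]; simp
  have hqq : q * conj q = 1 := by
    rw [mul_comm, ← Complex.normSq_eq_conj_mul_self, Complex.normSq_eq_norm_sq, H'.q1]; simp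
  have hpp : ((2 * (p / 2) : ℝ) : ℂ) = (p : ℂ) := by push_cast; ring
  have hpre : Pre {z : ℂ | b * z ∈ B} q (-conj b) (p / 2) := by
    refine ⟨by linarith, nrm_eq_one H'.q1, nrm_eq_one (by rw [norm_neg, Complex.norm_conj]; exact hb),
      ?_, ?_, ?_, ?_, ?_, ?_⟩
    · intro z hz
      have hz1 : ‖b * z‖ ≤ 1 := by
        rw [norm_mul, hb, one_mul]; exact (nrm_le_one_iff z).2 hz
      rcases H'.cov _ hz1 with h | h | h
      · right; right
        refine ⟨p - b * z, ?_, ?_⟩
        · exact H'.hAB _ h
        · rw [hpp]; linear_combination (-z) * hbb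
      · exact Or.inl h
      · right; left
        refine ⟨conj q * z, ?_, ?_⟩
        · show b * (conj q * z) ∈ B
          apply H'.rhi
          have e : q * (b * (conj q * z)) = b * z := by linear_combination (b * z) * hqq
          rw [e]; exact h
        · linear_combination (-z) * hqq
    · intro z w hz hw hzw
      have h1 := H'.rho _ hw
      refine H'.BC _ hz ?_
      have e : b * z = q * (b * w) := by rw [hzw]; ring
      rw [e]; exact h1
    · intro z w hz hw hzw
      have h1 := H'.hBA _ hw
      refine H'.AB _ ?_ hz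
      have e : b * z = Pool.Agent.H59.Disc.hd p b (b * w) := by
        rw [hzw, hpp, Pool.Agent.H59.Disc.hd]; linear_combination ((p : ℂ)) * hbb
      rw [e]; exact h1
    · intro z w hz hw hzw
      have h1 := H'.hBA _ hw
      have h2 := H'.rho _ hz
      refine H'.AC _ h1 ?_
      have e : Pool.Agent.H59.Disc.hd p b (b * w) = q * (b * z) := by
        have e1 : q * (b * z) = b * (q * z) := by ring
        rw [e1, hzw, hpp, Pool.Agent.H59.Disc.hd]; linear_combination (-(p : ℂ)) * hbb
      rw [e]; exact h2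
    · intro z hz
      have h1 := H'.dB _ hz
      rw [norm_mul, hb, one_mul] at h1
      exact (nrm_le_one_iff z).1 h1
    · intro z hz
      have h1 := H'.dA _ (H'.hBA _ hz)
      have e : Pool.Agent.H59.Disc.hd p b (b * z) = -(z - p) := by
        rw [Pool.Agent.H59.Disc.hd]; linear_combination (-z) * hbb
      rw [e, norm_neg, nrm_le_one_iff] at h1
      simp only [Complex.sub_re, Complex.sub_im, Complex.ofReal_re, Complex.ofReal_im, sub_zero]
        at h1
      rw [show 2 * (p / 2) = p by ring]
      exact h1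
  exact hpre.false

end Pool.Agent.H32.Disc
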