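import Pool.Agent.H32.Disc.CaseC

set_option autoImplicit false

open Real

namespace Pool.Agent.H32.Disc

variable {A : Set ℂ} {b1 b2 b3 t δ : ℝ}

/-- the real-analysis part of the boundary line -/
lemma line_real {s t H : ℝ} (hs1 : π / 3 < s) (hs2 : s < π / 2) (ht : 0 < t)
    (hH0 : 0 ≤ H) (hH1 : H ≤ 1)
    (hβ : t * (1 - cos (2 * s) - cos (3 * s)) ≤ H * sin (5 * s / 2)) :
    t * (1 + 4 * sin s ^ 2) ≤ sin (3 * s / 2) := by
  have hπ := pi_pos
  set c := cos s with hc
  have hc0 : 0 < c := cos_pos_of_mem_Ioo ⟨by linarith, by linarith⟩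
  have hc1 : c < 1 / 2 := by
    rw [← cos_pi_div_three]
    apply cos_lt_cos_of_nonneg_of_le_pi <;> linarith
  have hc2 : cos (2 * s) = 2 * c ^ 2 - 1 := cos_two_mul s
  have hc3 : cos (3 * s) = 4 * c ^ 3 - 3 * c := cos_three_mul s
  have hcc : c ^ 2 < 1 / 4 := by nlinarith only [hc0, hc1]
  have hccc : c ^ 3 < 1 / 8 := by
    have : c ^ 3 = c * c ^ 2 := by ring
    rw [this]; nlinarith only [hc0, hc1, hcc]
  have hL0 : 0 < 1 - cos (2 * s) - cos (3 * s) := by
    rw [hc2, hc3]; linarith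
  have hsin : 0 < sin (5 * s / 2) := by
    by_contra hcon
    push Not at hcon
    have h1 : H * sin (5 * s / 2) ≤ 0 := mul_nonpos_of_nonneg_of_nonpos hH0 hcon
    have h2 := mul_pos ht hL0
    linarith
  have hs3 : s < 2 * π / 5 := by
    by_contra hcon
    push Not at hcon
    have : sin (5 * s / 2) ≤ 0 := by
      rw [show 5 * s / 2 = (5 * s / 2 - π) + π by ring, sin_add_pi]
      have : 0 ≤ sin (5 * s / 2 - π) :=
        sin_nonneg_of_nonneg_of_le_pi (by linarith) (by linarith)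
      linarith
    linarith
  have hc3' : 3 / 10 ≤ c := by
    have h1 : cos (2 * (π / 5)) ≤ c := by
      apply cos_le_cos_of_nonneg_of_le_pi <;> linarith
    rw [cos_two_mul, cos_pi_div_five] at h1
    have h5 : (2.2 : ℝ) ≤ √5 := by
      apply le_sqrt_of_sq_le; norm_num
    have h55 : √5 ^ 2 = 5 := sq_sqrt (by norm_num)
    nlinarith only [h1, h5, h55]
  have hsin2 : sin (5 * s / 2) ≤ 1 / 2 := by
    rw [← sin_pi_div_six, ← sin_pi_sub (5 * s / 2)]
    apply sin_le_sin_of_le_of_le_pi_div_two <;> linarith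
  have hL : 5 / 2 ≤ 1 - cos (2 * s) - cos (3 * s) := by
    rw [hc2, hc3]
    have h1 : 0 ≤ 2 * c ^ 2 + 2 * c - 1 / 2 := by nlinarith only [hc3']
    have h2 := mul_nonneg (show 0 ≤ 1 - 2 * c by linarith) h1
    nlinarith only [h2]
  have ht5 : t ≤ 1 / 5 := by
    have h1 : H * sin (5 * s / 2) ≤ 1 / 2 := by nlinarith only [hH0, hH1, hsin, hsin2]
    have h2 : t * (5 / 2) ≤ t * (1 - cos (2 * s) - cos (3 * s)) :=
      mul_le_mul_of_nonneg_left hL ht.le
    linarith
  have hs2' : sin s ^ 2 = 1 - c ^ 2 := by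
    have := sin_sq_add_cos_sq s
    linarith
  have hq : sin (3 * s / 2) ^ 2 = (1 - (4 * c ^ 3 - 3 * c)) / 2 := by
    have h1 := cos_two_mul (3 * s / 2)
    rw [show 2 * (3 * s / 2) = 3 * s by ring, hc3] at h1
    have h2 := sin_sq_add_cos_sq (3 * s / 2)
    linarith
  have hq0 : 0 ≤ sin (3 * s / 2) := sin_nonneg_of_nonneg_of_le_pi (by linarith) (by linarith)
  have h1 : t * (1 + 4 * sin s ^ 2) ≤ 1 - 4 / 5 * c ^ 2 := by
    rw [hs2']
    have := mul_le_mul_of_nonneg_right ht5 (show 0 ≤ 1 + 4 * (1 - c ^ 2) by linarith)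
    linarith
  refine h1.trans ?_
  apply le_of_sq_le_sq _ hq0
  rw [hq]
  have e1 : (1 - (4 * c ^ 3 - 3 * c)) / 2 - (1 - 4 / 5 * c ^ 2) ^ 2
      = -1/2 + 3/2 * c + 8/5 * c ^ 2 - 2 * c ^ 3 - 16/25 * c ^ 4 := by ring
  have e2 : 0 ≤ -1/2 + 3/2 * c + 8/5 * c ^ 2 - 2 * c ^ 3 - 16/25 * c ^ 4 := by
    have a1 : c ^ 3 ≤ 1 / 2 * c ^ 2 := by
      rw [show c ^ 3 = c * c ^ 2 by ring]
      apply mul_le_mul_of_nonneg_right hc1.le (by positivity)
    have a2 : c ^ 4 ≤ 1 / 4 * c ^ 2 := by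
      rw [show c ^ 4 = c ^ 2 * c ^ 2 by ring]
      apply mul_le_mul_of_nonneg_right hcc.le (by positivity)
    nlinarith only [a1, a2, hc3']
  linarith

namespace Cfg

/-- the line `b2 = b3 > b1` -/
lemma line (h : Cfg A b1 b2 b3 t) (hd : Del b1 b2 b3 t δ) (h23 : b2 = b3) (h13 : b1 < b3)
    (h3 : b3 ≤ (π - δ) / 2) : False := by
  have hsum := h.sum
  have hp1 := h.p1
  have hp2 := h.p2
  have hp3 := h.p3
  have hπ := pi_pos
  have hδ := hd.pos
  have hδ3 := hd.le3
  have ht := h.t0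
  obtain ⟨s, hsdef⟩ : ∃ s, s = b3 := ⟨_, rfl⟩
  have hb3 : b3 = s := hsdef.symm
  have hb2 : b2 = s := by rw [h23, hb3]
  have hb1 : b1 = π - 2 * s := by linarith
  have hs1 : π / 3 < s := by linarith
  have hs2 : s < π / 2 := by linarith
  have hc0 : 0 < cos s := cos_pos_of_mem_Ioo ⟨by linarith, by linarith⟩
  have hc1 : cos s < 1 / 2 := by
    rw [← cos_pi_div_three]
    apply cos_lt_cos_of_nonneg_of_le_pi <;> linarith
  have hss0 : 0 < sin s := sin_pos_of_pos_of_lt_pi (by linarith) (by linarith)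
  by_cases hβ : √(1 - 4 * t ^ 2 * cos (b2 / 2) ^ 2) * sin (b1 - b2 / 2)
      < t * (1 + cos b1 + cos (b2 - b1))
  · exact h.M1 (by rw [hb3]; exact hc0.le) (by rw [hb2]; linarith) hβ
  push Not at hβ
  rw [show b1 - b2 / 2 = π - 5 * s / 2 by rw [hb1, hb2]; ring, sin_pi_sub,
    show b2 - b1 = 3 * s - π by rw [hb1, hb2]; ring, cos_sub_pi, hb1, cos_pi_sub] at hβ
  have hreal := line_real (s := s) (t := t) (H := √(1 - 4 * t ^ 2 * cos (b2 / 2) ^ 2)) hs1 hs2 ht
    (sqrt_nonneg _) (by rw [sqrt_le_one]; nlinarith only [sq_nonneg (t * cos (b2 / 2))]) (by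
      linarith)
  -- μ and τ
  set R := √(1 + (2 * sin s) ^ 2) with hR
  have hR2 : R ^ 2 = 1 + 4 * sin s ^ 2 := by
    rw [hR, sq_sqrt (by positivity)]; ring
  have hR0 : 0 < R := sqrt_pos.2 (by positivity)
  set μ := arctan (2 * sin s) with hμ
  have hcμ : R * cos μ = 1 := by
    rw [hμ, cos_arctan, ← hR]; exact mul_one_div_cancel hR0.ne'
  have hsμ : R * sin μ = 2 * sin s := by
    rw [hμ, sin_arctan, ← hR]; exact mul_div_cancel₀ _ hR0.ne'
  have hμ1 : μ < s := by
    have h1 : arctan (2 * sin s) < arctan (tan s) := by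
      apply arctan_strictMono
      rw [tan_eq_sin_div_cos, lt_div_iff₀ hc0]
      nlinarith only [hss0, hc0, hc1]
    rw [arctan_tan (by linarith) (by linarith)] at h1
    exact h1
  have hμ2 : π / 3 < μ := by
    have h1 : arctan (tan (π / 3)) < arctan (2 * sin s) := by
      apply arctan_strictMono
      rw [tan_pi_div_three]
      have : sin (π / 3) < sin s := by
        apply sin_lt_sin_of_lt_of_le_pi_div_two <;> linarith
      rw [sin_pi_div_three] at this
      linarith
    rw [arctan_tan (by linarith) (by linarith)] at h1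
    exact h1
  have htR : t * R ≤ sin (μ - s / 2) := by
    have e1 : R * sin (μ - s / 2) = sin (3 * s / 2) := by
      rw [sin_sub]
      have e2 : sin (3 * s / 2) = 2 * sin s * cos (s / 2) - sin (s / 2) := by
        have := two_mul_sin_mul_cos s (s / 2)
        rw [show s - s / 2 = s / 2 by ring, show s + s / 2 = 3 * s / 2 by ring] at this
        linarith
      rw [e2]
      linear_combination cos (s / 2) * hsμ - sin (s / 2) * hcμ
    have e3 : R * (t * R) ≤ R * sin (μ - s / 2) := by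
      rw [e1]
      calc R * (t * R) = t * R ^ 2 := by ring
        _ = t * (1 + 4 * sin s ^ 2) := by rw [hR2]
        _ ≤ _ := hreal
    exact le_of_mul_le_mul_left e3 hR0
  set τ := arcsin (t * R) with hτ
  have hτ0 : 0 ≤ τ := arcsin_nonneg.2 (by positivity)
  have hτ1 : τ ≤ μ - s / 2 := by
    have h1 : arcsin (t * R) ≤ arcsin (sin (μ - s / 2)) := monotone_arcsin htR
    rw [arcsin_sin (by linarith) (by linarith)] at h1
    exact h1
  have hsτ : sin τ = t * R := by
    apply sin_arcsin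
    · have : 0 ≤ t * R := by positivity
      linarith
    · exact htR.trans (sin_le_one _)
  -- the two points
  have hy1 := h.arcI hd h13.le h23.le h3 (ω := π / 2 + τ - μ - s) (by linarith) (by linarith)
  have hy2 := h.arcI hd h13.le h23.le h3 (ω := π / 2 - τ - μ) (by linarith) (by linarith)
  set ω1 := π / 2 + τ - μ - s with hω1
  set ω2 := π / 2 - τ - μ with hω2
  have hq : e (b1 + b2) = - e (-s) := by
    rw [show b1 + b2 = π + -s by rw [hb1, hb2]; ring, e_add, e_pi]; ring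
  have hbb : e b1 = - e (-(2 * s)) := by
    rw [show b1 = π + -(2 * s) by rw [hb1]; ring, e_add, e_pi]; ring
  have hident : e ω1 - e (ω2 - s) = (2 * t : ℝ) * (1 - e (-s) - e (-(2 * s))) := by
    have k1 : R * cos (μ + s) = cos s - 2 * sin s ^ 2 := by
      rw [cos_add]; linear_combination cos s * hcμ - sin s * hsμ
    have k2 : R * sin (μ + s) = 2 * sin s * cos s + sin s := by
      rw [sin_add]; linear_combination cos s * hsμ + sin s * hcμ
    have c1 : cos ω1 - cos (ω2 - s) = - 2 * sin τ * cos (μ + s) := by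
      rw [show ω1 = π / 2 - ((μ + s) - τ) by rw [hω1]; ring,
        show ω2 - s = π / 2 - ((μ + s) + τ) by rw [hω2]; ring, cos_pi_div_two_sub,
        cos_pi_div_two_sub, sin_sub (μ + s) τ, sin_add (μ + s) τ]
      ring
    have c2 : sin ω1 - sin (ω2 - s) = 2 * sin τ * sin (μ + s) := by
      rw [show ω1 = π / 2 - ((μ + s) - τ) by rw [hω1]; ring,
        show ω2 - s = π / 2 - ((μ + s) + τ) by rw [hω2]; ring, sin_pi_div_two_sub,
        sin_pi_div_two_sub, cos_sub (μ + s) τ, cos_add (μ + s) τ]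
      ring
    have k3 := cos_two_mul s
    have k4 := sin_two_mul s
    have k5 := sin_sq_add_cos_sq s
    apply Complex.ext
    · simp only [Complex.sub_re, Complex.mul_re, Complex.sub_im, Complex.ofReal_re,
        Complex.ofReal_im, Complex.one_re, Complex.one_im, e_re, e_im, cos_neg, sin_neg]
      rw [c1, hsτ, k3]
      linear_combination (-2 * t) * k1 + 4 * t * k5
    · simp only [Complex.sub_re, Complex.mul_im, Complex.sub_im, Complex.ofReal_re,
        Complex.ofReal_im, Complex.one_re, Complex.one_im, e_re, e_im, cos_neg, sin_neg]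
      rw [c2, hsτ, k4]
      linear_combination (2 * t) * k2
  -- the point z
  have hzn : (e (-(b1 + b2)) * (((2 * t : ℝ) : ℂ) - e ω1)).re ^ 2 +
      (e (-(b1 + b2)) * (((2 * t : ℝ) : ℂ) - e ω1)).im ^ 2 ≤ 1 := by
    rw [mul_nrm]; exact h.in1 _ hy1
  rcases h.cov _ hzn with h' | ⟨w, hw, hwz⟩ | ⟨w, hw, hwz⟩
  · refine h.n12 _ _ hy1 h' ?_
    rw [← mul_assoc, e_mul_neg, one_mul]
  · refine h.n23 _ w hy2 hw ?_
    have hw1 := inv_step hwz.symm
    have e1 : e (-(b1 + b2)) = - e s := by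
      rw [show -(b1 + b2) = s + -π by rw [hb1, hb2]; ring, e_add, show e (-π) = -1 by
        apply Complex.ext <;> simp]
      ring
    have e2 : e (ω2 - s) = e (-s) * e ω2 := by rw [← e_add]; congr 1; ring
    have e3 : e s * e (-s) = 1 := e_mul_neg s
    have e4 : e (-(2 * s)) = e (-s) * e (-s) := by rw [← e_add]; congr 1; ring
    rw [e2, e4] at hident
    rw [hw1, e1, hq, hbb, e4]
    linear_combination (-1 : ℂ) * hident +
      (((2 * t : ℝ) : ℂ) - e ω1) * (1 + e s * e (-s)) * e3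
  · have hN : w = e (-(2 * b1 + b2)) * (-1) * (e ω1 - (2 * t : ℝ) * (1 + e (-(3 * s)))) := by
      have hw1 := inv_step hwz.symm
      have e1 : e (-(2 * b1 + b2)) = e (-b1) * e (-(b1 + b2)) := by rw [← e_add]; congr 1; ring
      have e2 : e (-(2 * b1 + b2)) * e (-(3 * s)) = 1 := by
        rw [← e_add, show -(2 * b1 + b2) + -(3 * s) = -π + -π by rw [hb1, hb2]; ring, e_add,
          show e (-π) = -1 by apply Complex.ext <;> simp]
        ring
      have e3 : w = e (-b1) * (e (-(b1 + b2)) * (((2 * t : ℝ) : ℂ) - e ω1)) + (2 * t : ℝ) := by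
        rw [← hw1]; ring
      rw [e3, ← mul_assoc, ← e1]
      linear_combination (-(2 * t : ℝ) : ℂ) * e2
    have h4 := h.in1 w hw
    rw [hN, show e (-(2 * b1 + b2)) * (-1) = e (-(2 * b1 + b2) + π) by
      rw [e_add, e_pi], mul_nrm] at h4
    refine absurd h4 (not_le.2 (uu_out ht (e_sq _) ?_))
    simp only [Complex.add_re, Complex.one_re, e_re, cos_neg, Complex.add_im, Complex.one_im,
      e_im, sin_neg, zero_add]
    have f1 : cos ω1 * (1 + cos (3 * s)) + sin ω1 * -sin (3 * s)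
        = 2 * cos (ω1 + 3 * s / 2) * cos (3 * s / 2) := by
      rw [two_mul_cos_mul_cos, show ω1 + 3 * s / 2 - 3 * s / 2 = ω1 by ring,
        show ω1 + 3 * s / 2 + 3 * s / 2 = ω1 + 3 * s by ring, cos_add]
      ring
    have f2 : (1 + cos (3 * s)) ^ 2 + (-sin (3 * s)) ^ 2 = 4 * cos (3 * s / 2) ^ 2 := by
      have h1 := cos_two_mul (3 * s / 2)
      rw [show 2 * (3 * s / 2) = 3 * s by ring] at h1
      have h2 := sin_sq_add_cos_sq (3 * s)
      nlinarith only [h1, h2]
    rw [f1, f2]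
    have f3 : 0 ≤ cos (ω1 + 3 * s / 2) := by
      rw [show ω1 + 3 * s / 2 = π / 2 - (μ - s / 2 - τ) by rw [hω1]; ring, cos_pi_div_two_sub]
      exact sin_nonneg_of_nonneg_of_le_pi (by linarith) (by linarith)
    have f4 : cos (3 * s / 2) < 0 :=
      cos_neg_of_pi_div_two_lt_of_lt (by linarith) (by linarith)
    have f5 : 0 < t * cos (3 * s / 2) ^ 2 := by
      have : 0 < cos (3 * s / 2) ^ 2 := sq_pos_of_neg f4
      positivity
    have f6 : cos (ω1 + 3 * s / 2) * cos (3 * s / 2) ≤ 0 :=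
      mul_nonpos_of_nonneg_of_nonpos f3 f4.le
    linarith

end Cfg

end Pool.Agent.H32.Disc
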