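import Pool.Agent.H32.Disc.Basic

set_option autoImplicit false

open Real

namespace Pool.Agent.H32.Disc

variable {A : Set ℂ} {b1 b2 b3 t : ℝ}

namespace Cfg

lemma cosα (h : Cfg A b1 b2 b3 t) : cos (b1 + b2) = - cos b3 := by
  rw [show b1 + b2 = π - b3 by linarith [h.sum], cos_pi_sub]

lemma sinα (h : Cfg A b1 b2 b3 t) : sin (b1 + b2) = sin b3 := by
  rw [show b1 + b2 = π - b3 by linarith [h.sum], sin_pi_sub]

lemma t_le (h : Cfg A b1 b2 b3 t) : t ≤ 1 / 2 := by
  have hs := h.sum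
  have p1 := h.p1
  have p2 := h.p2
  have p3 := h.p3
  have key : ∀ b : ℝ, 0 < b → t ≤ sin (b / 2) → b ≤ π / 3 → t ≤ 1 / 2 := by
    intro b hb htb hb3
    have : sin (b / 2) ≤ sin (π / 6) := by
      apply sin_le_sin_of_le_of_le_pi_div_two <;> linarith [pi_pos]
    rw [sin_pi_div_six] at this
    linarith
  by_cases c1 : b1 ≤ π / 3
  · exact key b1 p1 h.h1 c1
  by_cases c2 : b2 ≤ π / 3
  · exact key b2 p2 h.h2 c2
  exact key b3 p3 h.h3 (by linarith)

/-- first main pattern -/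
lemma M1 (h : Cfg A b1 b2 b3 t) (hb3 : 0 ≤ cos b3) (hb2 : 0 < 1 + 2 * cos b2)
    (hβ : √(1 - 4 * t ^ 2 * cos (b2 / 2) ^ 2) * sin (b1 - b2 / 2)
      < t * (1 + cos b1 + cos (b2 - b1))) : False := by
  set H := √(1 - 4 * t ^ 2 * cos (b2 / 2) ^ 2) with hH
  have ht := h.t0
  have ht2 := h.t_le
  have hsum := h.sum
  have hp1 := h.p1
  have hp2 := h.p2
  have hp3 := h.p3
  set c := cos (b2 / 2) with hc
  set s := sin (b2 / 2) with hs
  have hcs : s ^ 2 + c ^ 2 = 1 := sin_sq_add_cos_sq _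
  have hs0 : 0 < s := sin_pos_of_pos_of_lt_pi (by linarith) (by linarith)
  have hc0 : 0 < c := cos_pos_of_mem_Ioo ⟨by linarith, by linarith⟩
  have hc1 : c ^ 2 < 1 := by nlinarith
  have htt : t ^ 2 ≤ 1 / 4 := by nlinarith
  have hrad : s ^ 2 ≤ 1 - 4 * t ^ 2 * c ^ 2 := by nlinarith [sq_nonneg c]
  have hH2 : H ^ 2 = 1 - 4 * t ^ 2 * c ^ 2 := by
    rw [hH, sq_sqrt]; nlinarith [sq_nonneg s]
  have hH0 : 0 ≤ H := sqrt_nonneg _
  have hHs : s ≤ H := by
    rw [hH]; apply le_sqrt_of_sq_le hrad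
  -- product formulas
  have hx1 : 2 * c * cos (b1 + b2 / 2) = cos (b1 + b2) + cos b1 := by
    have := two_mul_cos_mul_cos (b1 + b2 / 2) (b2 / 2)
    rw [show b1 + b2 / 2 - b2 / 2 = b1 by ring, show b1 + b2 / 2 + b2 / 2 = b1 + b2 by ring,
      ← hc] at this
    linarith
  have hx2 : 2 * c * cos (b1 - b2 / 2) = cos b1 + cos (b2 - b1) := by
    have := two_mul_cos_mul_cos (b1 - b2 / 2) (b2 / 2)
    rw [show b1 - b2 / 2 - b2 / 2 = -(b2 - b1) by ring, show b1 - b2 / 2 + b2 / 2 = b1 by ring,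
      ← hc, cos_neg] at this
    linarith
  have hb2c : cos b2 = 1 - 2 * s ^ 2 := by
    have : cos b2 = cos (2 * (b2 / 2)) := by congr 1; ring
    rw [this, cos_two_mul]; linarith
  have hx3 : 2 * c * cos (3 * b2 / 2) = cos b2 + (2 * cos b2 ^ 2 - 1) := by
    have := two_mul_cos_mul_cos (3 * b2 / 2) (b2 / 2)
    rw [show 3 * b2 / 2 - b2 / 2 = b2 by ring, show 3 * b2 / 2 + b2 / 2 = 2 * b2 by ring,
      ← hc, cos_two_mul] at this
    linarith
  have hx4 : sin (3 * b2 / 2) = s * (1 + 2 * cos b2) := by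
    rw [show 3 * b2 / 2 = 3 * (b2 / 2) by ring, sin_three_mul, hb2c]; ring
  -- the point u
  have hu : e (b2 / 2) * ⟨2 * t * c, -H⟩ ∈ A := by
    apply h.F1
    · rw [mul_nrm]; simp only; nlinarith
    · rw [mul_dot, show b1 + b2 - b2 / 2 = b1 + b2 / 2 by ring]
      simp only
      have hsp : 0 < sin (b1 + b2 / 2) := sin_pos_of_pos_of_lt_pi (by linarith) (by linarith)
      have hcb : cos b1 ≤ 1 := cos_le_one _
      have hcb' : cos b1 < 1 := by
        have := cos_lt_cos_of_nonneg_of_le_pi (x := 0) (y := b1) le_rfl (by linarith) hp1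
        simpa using this
      have e1 : 2 * t * c * cos (b1 + b2 / 2) = t * (cos (b1 + b2) + cos b1) := by
        rw [← hx1]; ring
      rw [e1, h.cosα]
      nlinarith [mul_nonneg hH0 hsp.le, mul_nonneg ht.le hb3, mul_pos ht (sub_pos.2 hcb')]
    · rw [mul_dot]
      simp only
      have e1 : 2 * t * c * cos (b1 - b2 / 2) = t * (cos b1 + cos (b2 - b1)) := by
        rw [← hx2]; ring
      rw [e1]
      nlinarith
  -- the point x
  obtain ⟨w, hw, hxw⟩ := h.F3 (z := e (b1 - b2 / 2) * ⟨-(2 * t * c), -H⟩) (by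
      rw [mul_nrm]; simp only; nlinarith) (by
      rw [mul_re0]
      simp only
      have e1 : 2 * t * c * cos (b1 - b2 / 2) = t * (cos b1 + cos (b2 - b1)) := by
        rw [← hx2]; ring
      nlinarith) (by
      rw [mul_dot, show b1 + b2 - (b1 - b2 / 2) = 3 * b2 / 2 by ring]
      simp only
      have e1 : 2 * t * c * cos (3 * b2 / 2) = t * (cos b2 + (2 * cos b2 ^ 2 - 1)) := by
        rw [← hx3]; ring
      rw [neg_mul, e1, hx4]
      have key : 0 < t * cos b2 + H * s := by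
        rw [hb2c]
        nlinarith [mul_le_mul_of_nonneg_right hHs hs0.le, sq_nonneg s]
      nlinarith [mul_pos hb2 key])
  refine h.n23 w _ hw hu ?_
  -- q w = psi u
  have hw' : w = e (-(b2/2)) * ⟨-(2 * t * c), -H⟩ + (2 * t : ℝ) := by
    have h1 : e (-b1) * (e (b1 - b2 / 2) * ⟨-(2 * t * c), -H⟩) = w - (2 * t : ℝ) := by
      rw [hxw, ← mul_assoc, e_neg_mul, one_mul]
    rw [← mul_assoc, ← e_add, show -b1 + (b1 - b2 / 2) = -(b2/2) by ring] at h1
    rw [h1]; ring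
  rw [hw', e_add, mul_assoc]
  congr 1
  have hb2e : e b2 = e (b2 / 2) * e (b2 / 2) := by rw [← e_add]; congr 1; ring
  rw [mul_add, ← mul_assoc, ← e_add, show b2 + -(b2/2) = b2 / 2 by ring, hb2e]
  apply Complex.ext
  · simp [← hc, ← hs]
    linear_combination (-2 * t) * hcs
  · simp [← hc, ← hs]
    ring

end Cfg

end Pool.Agent.H32.Disc
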